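import Mathlib
import Pool.Agent.SqrtParity.Chain

set_option autoImplicit false

/-!
# Sign changes below the square root barrier: definitions
-/

namespace Pool.Agent.SSQ

open Pool.Agent.SqrtParity

/-- `f` is completely multiplicative with values `1, -1` and constant, equal to `e`, on
`(n², n² + n / b]`. -/
structure Hyp (f : ℕ → ℤ) (n b : ℝ) (e : ℤ) : Prop where
  cm : CM f
  hn : 1 ≤ n
  hb : 2 ≤ b
  win : ∀ m : ℕ, n ^ 2 < m → (m : ℝ) ≤ n ^ 2 + n / b → f m = e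

/-- `k_h = (n² / h) ^ (1/3)` -/
noncomputable def kk (n h : ℝ) : ℝ := (n ^ 2 / h) ^ ((1 : ℝ) / 3)

/-- `F(t) = 3 (n t) ^ (2/3)`; one has `F(h) = 3 h k_h` -/
noncomputable def FF (n t : ℝ) : ℝ := 3 * (n * t) ^ ((2 : ℝ) / 3)

/-- radius of the block of the multiplier `h` -/
noncomputable def Ih (n b : ℝ) (J : ℕ) (h : ℝ) : ℝ :=
  √(kk n h / (800 * b ^ 2 * h)) / (2 * J) - J

/-- good multipliers -/
def Good (n b : ℝ) (J : ℕ) (h : ℝ) : Prop :=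
  ∃ j : ℕ, 1 ≤ j ∧ j ≤ J ∧ ∃ P : ℤ, 1 / (800 * b ^ 2) ≤ P - j ^ 2 * FF n h ∧
    P - j ^ 2 * FF n h ≤ 1 / (400 * b ^ 2)

/-- `f` is constant (`= κ`) on the multiples of `j` in the block of `h` -/
def Blk (f : ℕ → ℤ) (n b : ℝ) (J : ℕ) (h : ℕ) (j : ℕ) (κ : ℤ) : Prop :=
  1 ≤ j ∧ j ≤ J ∧ (κ = 1 ∨ κ = -1) ∧
    ∀ u : ℕ, 1 ≤ u → j ∣ u → |2 * (u : ℝ) - kk n h| ≤ Ih n b J h → f u = κ

/-- difference operator on sequences -/
def Dq (q : ℕ) (g : ℕ → ℝ) : ℕ → ℝ := fun s => g (s + q) - g s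

/-- difference operator on functions -/
def Dr (u : ℝ) (g : ℝ → ℝ) : ℝ → ℝ := fun x => g (x + u) - g x

end Pool.Agent.SSQ
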