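import Mathlib
import Pool.Agent.SSQ.Defs

set_option autoImplicit false

/-!
# Fifth differences of `t ^ (2/3)`
-/

namespace Pool.Agent.SSQ

/-- iterated differences -/
def DrL : List ℝ → (ℝ → ℝ) → ℝ → ℝ
  | [], g => g
  | u :: us, g => Dr u (DrL us g)

theorem hasDerivAt_DrL (us : List ℝ) (hus : ∀ u ∈ us, 0 ≤ u) (g g' : ℝ → ℝ)
    (h : ∀ x : ℝ, 0 < x → HasDerivAt g (g' x) x) :
    ∀ x : ℝ, 0 < x → HasDerivAt (DrL us g) (DrL us g' x) x := by
  induction us with
  | nil => exact h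
  | cons u us ih =>
    intro x hx
    have ih' := ih (fun v hv => hus v (List.mem_cons_of_mem _ hv))
    have hu : 0 ≤ u := hus u List.mem_cons_self
    have h1 : HasDerivAt (fun y => DrL us g (y + u)) (DrL us g' (x + u)) x :=
      (ih' (x + u) (by linarith)).comp_add_const x u
    exact h1.sub (ih' x hx)

theorem DrL_bounds (F : ℕ → ℝ → ℝ) (hF : ∀ i : ℕ, ∀ x : ℝ, 0 < x → HasDerivAt (F i) (F (i + 1) x) x)
    {A B L M : ℝ} (hA : 0 < A) (us : List ℝ) (hus : ∀ u ∈ us, 0 ≤ u) :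
    ∀ i : ℕ, (∀ y : ℝ, A ≤ y → y ≤ B → L ≤ F (i + us.length) y ∧ F (i + us.length) y ≤ M) →
      ∀ x : ℝ, A ≤ x → x + us.sum ≤ B →
        L * us.prod ≤ DrL us (F i) x ∧ DrL us (F i) x ≤ M * us.prod := by
  induction us with
  | nil =>
    intro i h x hx hB
    simp only [List.sum_nil, add_zero] at hB
    simpa [DrL] using h x hx hB
  | cons u us ih =>
    intro i h x hx hB
    have hus' : ∀ v ∈ us, 0 ≤ v := fun v hv => hus v (List.mem_cons_of_mem _ hv)
    have hu : 0 ≤ u := hus u List.mem_cons_self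
    have hs : 0 ≤ us.sum := List.sum_nonneg hus'
    rw [List.sum_cons] at hB
    have hder := hasDerivAt_DrL us hus' (F i) (F (i + 1)) (hF i)
    have ih' := ih hus' (i + 1) (by
      intro y h1 h2
      have := h y h1 h2
      rw [List.length_cons] at this
      rw [show i + 1 + us.length = i + (us.length + 1) by ring]
      exact this)
    have e : DrL (u :: us) (F i) x = DrL us (F i) (x + u) - DrL us (F i) x := rfl
    rcases hu.eq_or_lt with h0 | h0
    · rw [e, List.prod_cons, ← h0]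
      simp
    · obtain ⟨ξ, hξ, hd⟩ := exists_hasDerivAt_eq_slope (DrL us (F i)) (DrL us (F (i + 1)))
        (show x < x + u by linarith)
        (fun y hy => (hder y (by linarith [hy.1])).continuousAt.continuousWithinAt)
        (fun y hy => hder y (by linarith [hy.1]))
      have h1 := ih' ξ (by linarith [hξ.1]) (by linarith [hξ.2])
      have h2 : DrL us (F i) (x + u) - DrL us (F i) x = u * DrL us (F (i + 1)) ξ := by
        rw [hd, show x + u - x = u by ring]
        field_simp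
      rw [e, h2, List.prod_cons]
      constructor
      · calc L * (u * us.prod) = u * (L * us.prod) := by ring
          _ ≤ u * DrL us (F (i + 1)) ξ := mul_le_mul_of_nonneg_left h1.1 hu
      · calc u * DrL us (F (i + 1)) ξ ≤ u * (M * us.prod) := mul_le_mul_of_nonneg_left h1.2 hu
          _ = M * (u * us.prod) := by ring

/-- the coefficients of the derivatives of `t ^ (2/3)` -/
noncomputable def cF : ℕ → ℝ
  | 0 => 1
  | i + 1 => cF i * ((2 : ℝ) / 3 - i)

theorem hasDerivAt_cF (i : ℕ) (x : ℝ) (hx : 0 < x) :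
    HasDerivAt (fun t : ℝ => cF i * t ^ ((2 : ℝ) / 3 - i))
      (cF (i + 1) * x ^ ((2 : ℝ) / 3 - (i + 1 : ℕ))) x := by
  have h := (Real.hasDerivAt_rpow_const (x := x) (p := (2 : ℝ) / 3 - i) (Or.inl hx.ne')).const_mul
    (cF i)
  refine h.congr_deriv ?_
  have e : (2 : ℝ) / 3 - ((i + 1 : ℕ) : ℝ) = (2 : ℝ) / 3 - i - 1 := by
    push_cast
    ring
  rw [e]
  simp only [cF]
  ring

/-! M8 (Fifth.lean): fifth differences by the mean value theorem, for `t ^ (2/3)`. -/
theorem fifth_pos {A B x u₁ u₂ u₃ u₄ u₅ : ℝ} (hA : 0 < A) (hx : A ≤ x) (h1 : 0 ≤ u₁)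
    (h2 : 0 ≤ u₂) (h3 : 0 ≤ u₃) (h4 : 0 ≤ u₄) (h5 : 0 ≤ u₅) (hB : x + u₁ + u₂ + u₃ + u₄ + u₅ ≤ B) :
    560 / 243 * B ^ (-(13 : ℝ) / 3) * (u₁ * u₂ * u₃ * u₄ * u₅)
      ≤ Dr u₁ (Dr u₂ (Dr u₃ (Dr u₄ (Dr u₅ (fun t => t ^ ((2 : ℝ) / 3)))))) x ∧
    Dr u₁ (Dr u₂ (Dr u₃ (Dr u₄ (Dr u₅ (fun t => t ^ ((2 : ℝ) / 3)))))) x
      ≤ 560 / 243 * A ^ (-(13 : ℝ) / 3) * (u₁ * u₂ * u₃ * u₄ * u₅) := by
  have key := DrL_bounds (fun i t => cF i * t ^ ((2 : ℝ) / 3 - i))
    (fun i x hx => hasDerivAt_cF i x hx)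
    (A := A) (B := B) (L := 560 / 243 * B ^ (-(13 : ℝ) / 3)) (M := 560 / 243 * A ^ (-(13 : ℝ) / 3))
    hA [u₁, u₂, u₃, u₄, u₅] (by
      intro u hu
      simp only [List.mem_cons, List.not_mem_nil, or_false] at hu
      rcases hu with rfl | rfl | rfl | rfl | rfl <;> assumption) 0 (by
      intro y hy1 hy2
      have hc : cF (0 + [u₁, u₂, u₃, u₄, u₅].length) = 560 / 243 := by
        simp only [List.length_cons, List.length_nil, Nat.zero_add, cF]
        norm_num
      have he : (2 : ℝ) / 3 - ((0 + [u₁, u₂, u₃, u₄, u₅].length : ℕ) : ℝ) = -(13 : ℝ) / 3 := by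
        simp only [List.length_cons, List.length_nil]
        norm_num
      have hy0 : 0 < y := by linarith
      rw [hc, he]
      constructor
      · apply mul_le_mul_of_nonneg_left _ (by norm_num)
        exact Real.rpow_le_rpow_of_nonpos hy0 hy2 (by norm_num)
      · apply mul_le_mul_of_nonneg_left _ (by norm_num)
        exact Real.rpow_le_rpow_of_nonpos hA hy1 (by norm_num)) x hx (by
      simp only [List.sum_cons, List.sum_nil]
      linarith)
  have e : (fun t : ℝ => cF 0 * t ^ ((2 : ℝ) / 3 - ((0 : ℕ) : ℝ))) =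
      fun t : ℝ => t ^ ((2 : ℝ) / 3) := by
    funext t
    simp [cF]
  have e2 : [u₁, u₂, u₃, u₄, u₅].prod = u₁ * u₂ * u₃ * u₄ * u₅ := by
    simp only [List.prod_cons, List.prod_nil]
    ring
  rw [e2] at key
  simp only [DrL] at key
  rw [e] at key
  exact key

end Pool.Agent.SSQ
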