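import Mathlib

set_option autoImplicit false

/-!
# The real inequalities behind the block lemma
-/

namespace Pool.Agent.SSQ

theorem block_aux {k t S κ u v : ℝ} (hk : 0 < k) (ht0 : 0 < t) (ht1 : t ≤ 1 / 4800)
    (hS : 20 ≤ S) (hSk : S ^ 2 = 3 * k * t) (hκ : κ = k + t)
    (hQ1 : S ^ 2 - 13 * S ≤ u ^ 2 + u * v + v ^ 2) (hQ2 : u ^ 2 + u * v + v ^ 2 ≤ S ^ 2 - 6 * S)
    (hu : |u| ≤ 3 / 5 * S) (hv : |v| ≤ 13 / 10 * S) :
    0 < κ ^ 3 - k ^ 3 - κ * (u ^ 2 + u * v + v ^ 2) - u * v * (u + v) ∧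
    κ ^ 3 - k ^ 3 - κ * (u ^ 2 + u * v + v ^ 2) - u * v * (u + v) ≤ 20 * S * k := by
  have hS0 : 0 < S := by linarith
  have hkS : 1600 * S ^ 2 ≤ k := by
    rw [hSk]
    nlinarith
  have hE : κ ^ 3 - k ^ 3 - κ * (u ^ 2 + u * v + v ^ 2) - u * v * (u + v)
      = κ * (S ^ 2 - (u ^ 2 + u * v + v ^ 2)) + t ^ 3 - u * v * (u + v) := by
    rw [hSk, hκ]; ring
  have huv : |u + v| ≤ 19 / 10 * S := by
    calc |u + v| ≤ |u| + |v| := abs_add_le _ _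
      _ ≤ 3 / 5 * S + 13 / 10 * S := by gcongr
      _ = _ := by ring
  have hcub : |u * v * (u + v)| ≤ 1 / 1000 * (S * k) := by
    rw [abs_mul, abs_mul]
    calc |u| * |v| * |u + v| ≤ 3 / 5 * S * (13 / 10 * S) * (19 / 10 * S) := by gcongr
      _ ≤ 3 / 2 * (S * S ^ 2) := by nlinarith [pow_pos hS0 3]
      _ ≤ 3 / 2 * (S * (k / 1600)) := by gcongr; linarith
      _ ≤ _ := by nlinarith [mul_pos hS0 hk]
  rw [hE]
  have hk1 : 1 ≤ k := by nlinarith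
  have hκ0 : 0 < κ := by rw [hκ]; linarith
  have hκ1 : κ ≤ 1001 / 1000 * k := by rw [hκ]; linarith
  have hκk : k ≤ κ := by rw [hκ]; linarith
  rw [abs_le] at hcub
  have ht3 : 0 < t ^ 3 := by positivity
  have ht31 : t ^ 3 ≤ 1 := pow_le_one₀ ht0.le (by linarith)
  have hSk0 : 0 < S * k := mul_pos hS0 hk
  constructor
  · have h1 : κ * (6 * S) ≤ κ * (S ^ 2 - (u ^ 2 + u * v + v ^ 2)) :=
      mul_le_mul_of_nonneg_left (by linarith) hκ0.le
    have h2 : k * (6 * S) ≤ κ * (6 * S) := mul_le_mul_of_nonneg_right hκk (by positivity)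
    nlinarith
  · have h1 : κ * (S ^ 2 - (u ^ 2 + u * v + v ^ 2)) ≤ κ * (13 * S) :=
      mul_le_mul_of_nonneg_left (by linarith) hκ0.le
    have h2 : κ * (13 * S) ≤ 1001 / 1000 * k * (13 * S) :=
      mul_le_mul_of_nonneg_right hκ1 (by positivity)
    have h3 : 1 ≤ S * k := by nlinarith
    nlinarith

theorem block_real {h k ρ c κ n u : ℝ} (hh : 1 ≤ h) (hk : 0 < k) (hρ0 : 0 < ρ)
    (hρ : ρ ≤ c ^ 2 / 400) (hc0 : 0 < c) (hc : c ≤ 1 / 2) (hbig : 400 * h ≤ k * ρ) (hn : 0 < n)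
    (hn2 : h * k ^ 3 = n ^ 2) (hκ : κ = k + ρ / (3 * h)) (hu : |u| ≤ √(k * ρ / h) / 2) :
    ∃ v₀ : ℝ, 0 ≤ v₀ ∧ v₀ ≤ 2 * √(k * ρ / h) ∧ ∀ v : ℝ, v₀ - 1 < v → v ≤ v₀ →
      ∀ a b : ℝ, ((a = 0 ∧ b = 0) ∨ (a = 1 ∧ b = -1) ∨ (a = 1 ∧ b = 0) ∨ (a = 2 ∧ b = -1)) →
        n ^ 2 < h * ((κ - (u + a) - (v + b)) * (κ + (u + a)) * (κ + (v + b))) ∧
        h * ((κ - (u + a) - (v + b)) * (κ + (u + a)) * (κ + (v + b))) ≤ n ^ 2 + c * n := by
  have hh0 : 0 < h := by linarith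
  obtain ⟨S, hS⟩ : ∃ S : ℝ, S = √(k * ρ / h) := ⟨_, rfl⟩
  rw [← hS] at hu ⊢
  have hS2 : S ^ 2 = k * ρ / h := by rw [hS]; exact Real.sq_sqrt (by positivity)
  have hSpos : 0 ≤ S := by rw [hS]; exact Real.sqrt_nonneg _
  have hS400 : 400 ≤ S ^ 2 := by
    rw [hS2, le_div_iff₀ hh0]; exact hbig
  have hS20 : 20 ≤ S := by nlinarith
  have hS0 : 0 < S := by linarith
  obtain ⟨t, ht⟩ : ∃ t : ℝ, t = ρ / (3 * h) := ⟨_, rfl⟩
  rw [← ht] at hκ
  have ht0 : 0 < t := by rw [ht]; positivity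
  have hρ1 : ρ ≤ 1 / 1600 := by nlinarith
  have ht1 : t ≤ 1 / 4800 := by
    rw [ht, div_le_iff₀ (by positivity)]
    nlinarith
  have hSk : S ^ 2 = 3 * k * t := by
    rw [hS2, ht]; field_simp
  have hu1 := abs_le.1 hu
  -- the point `v₀`
  obtain ⟨D, hD⟩ : ∃ D : ℝ, D = S ^ 2 - 9 * S - 3 * u ^ 2 / 4 := ⟨_, rfl⟩
  have hu2 : u ^ 2 ≤ S ^ 2 / 4 := by
    have := sq_le_sq' (by linarith [hu1.1]) hu1.2
    linarith [this, (by ring : (S / 2) ^ 2 = S ^ 2 / 4)]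
  have hD1 : u ^ 2 / 4 ≤ D := by rw [hD]; nlinarith
  have hD0 : 0 ≤ D := by nlinarith [sq_nonneg u]
  have hD144 : 1 ≤ D := by rw [hD]; nlinarith
  have hDS : √D ≤ S := by
    rw [← Real.sqrt_sq hSpos]
    apply Real.sqrt_le_sqrt
    rw [hD]; nlinarith [sq_nonneg u]
  have hDu : u / 2 ≤ √D := by
    apply Real.le_sqrt_of_sq_le
    linarith [(by ring : (u / 2) ^ 2 = u ^ 2 / 4)]
  have hDq : √D ^ 2 = D := Real.sq_sqrt hD0
  have hD1' : 1 ≤ √D := by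
    apply Real.le_sqrt_of_sq_le
    linarith
  refine ⟨-u / 2 + √D, by linarith, by linarith [hu1.1], ?_⟩
  intro v hv1 hv2 a b hab
  -- bounds for `v`
  have hv3 : v ≤ 5 / 4 * S := by linarith [hu1.1]
  have hv4 : -1 < v := by linarith
  have hQv0 : u ^ 2 + u * (-u / 2 + √D) + (-u / 2 + √D) ^ 2 = S ^ 2 - 9 * S := by
    have : u ^ 2 + u * (-u / 2 + √D) + (-u / 2 + √D) ^ 2 = 3 * u ^ 2 / 4 + √D ^ 2 := by ring
    rw [this, hDq, hD]; ring
  have hQdiff : u ^ 2 + u * v + v ^ 2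
      = S ^ 2 - 9 * S - (-u / 2 + √D - v) * (u + v + (-u / 2 + √D)) := by
    rw [← hQv0]; ring
  have hd0 : 0 ≤ -u / 2 + √D - v := by linarith
  have hd1 : -u / 2 + √D - v ≤ 1 := by linarith
  have hs0 : 0 ≤ u + v + (-u / 2 + √D) := by linarith
  have hs1 : u + v + (-u / 2 + √D) ≤ 2 * S := by linarith
  have hQ2 : u ^ 2 + u * v + v ^ 2 ≤ S ^ 2 - 9 * S := by
    rw [hQdiff]
    have := mul_nonneg hd0 hs0
    linarith
  have hQ1 : S ^ 2 - 11 * S ≤ u ^ 2 + u * v + v ^ 2 := by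
    rw [hQdiff]
    have : (-u / 2 + √D - v) * (u + v + (-u / 2 + √D)) ≤ 1 * (2 * S) := by gcongr
    linarith
  have key : 0 < κ ^ 3 - k ^ 3 - κ * ((u + a) ^ 2 + (u + a) * (v + b) + (v + b) ^ 2)
        - (u + a) * (v + b) * ((u + a) + (v + b)) ∧
      κ ^ 3 - k ^ 3 - κ * ((u + a) ^ 2 + (u + a) * (v + b) + (v + b) ^ 2)
        - (u + a) * (v + b) * ((u + a) + (v + b)) ≤ 20 * S * k := by
    rcases hab with ⟨ha, hb⟩ | ⟨ha, hb⟩ | ⟨ha, hb⟩ | ⟨ha, hb⟩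
    · subst ha hb
      apply block_aux hk ht0 ht1 hS20 hSk hκ
      · simp only [add_zero]; linarith
      · simp only [add_zero]; linarith
      · rw [abs_le]; constructor <;> linarith [hu1.1, hu1.2]
      · rw [abs_le]; constructor <;> linarith [hu1.1, hu1.2]
    · subst ha hb
      have e : (u + 1) ^ 2 + (u + 1) * (v + -1) + (v + -1) ^ 2
        = u ^ 2 + u * v + v ^ 2 + u - v + 1 := by ring
      apply block_aux hk ht0 ht1 hS20 hSk hκ
      · rw [e]; linarith [hu1.1, hu1.2]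
      · rw [e]; linarith [hu1.1, hu1.2]
      · rw [abs_le]; constructor <;> linarith [hu1.1, hu1.2]
      · rw [abs_le]; constructor <;> linarith [hu1.1, hu1.2]
    · subst ha hb
      have e : (u + 1) ^ 2 + (u + 1) * (v + 0) + (v + 0) ^ 2
        = u ^ 2 + u * v + v ^ 2 + 2 * u + 1 + v := by ring
      apply block_aux hk ht0 ht1 hS20 hSk hκ
      · rw [e]; linarith [hu1.1, hu1.2]
      · rw [e]; linarith [hu1.1, hu1.2]
      · rw [abs_le]; constructor <;> linarith [hu1.1, hu1.2]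
      · rw [abs_le]; constructor <;> linarith [hu1.1, hu1.2]
    · subst ha hb
      have e : (u + 2) ^ 2 + (u + 2) * (v + -1) + (v + -1) ^ 2
        = u ^ 2 + u * v + v ^ 2 + 3 * u + 3 := by ring
      apply block_aux hk ht0 ht1 hS20 hSk hκ
      · rw [e]; linarith [hu1.1, hu1.2]
      · rw [e]; linarith [hu1.1, hu1.2]
      · rw [abs_le]; constructor <;> linarith [hu1.1, hu1.2]
      · rw [abs_le]; constructor <;> linarith [hu1.1, hu1.2]
  -- the window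
  have hcn : 20 * S * k * h ≤ c * n := by
    apply le_of_sq_le_sq _ (by positivity)
    have e1 : (20 * S * k * h) ^ 2 = 400 * ρ * (h * k ^ 3) := by
      have : (20 * S * k * h) ^ 2 = 400 * S ^ 2 * k ^ 2 * h ^ 2 := by ring
      rw [this, hS2]; field_simp
    rw [e1, hn2, mul_pow]
    have : 400 * ρ ≤ c ^ 2 := by linarith
    gcongr
  have hG : h * ((κ - (u + a) - (v + b)) * (κ + (u + a)) * (κ + (v + b)))
      = n ^ 2 + h * (κ ^ 3 - k ^ 3 - κ * ((u + a) ^ 2 + (u + a) * (v + b) + (v + b) ^ 2)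
        - (u + a) * (v + b) * ((u + a) + (v + b))) := by
    rw [← hn2]; ring
  rw [hG]
  constructor
  · have := mul_pos hh0 key.1
    linarith
  · have := mul_le_mul_of_nonneg_left key.2 hh0.le
    linarith [(by ring : h * (20 * S * k) = 20 * S * k * h)]

end Pool.Agent.SSQ
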