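import Mathlib
import Pool.Agent.SSQ.Defs
import Pool.Agent.SSQ.BlockReal

set_option autoImplicit false

/-!
# The block lemma
-/

namespace Pool.Agent.SSQ

open Pool.Agent.SqrtParity

theorem block_alg {x y1 y2 y3 z1 z2 w1 e : ℤ} (hx : x * x = 1) (hw : w1 * w1 = 1)
    (hz1 : z1 * z1 = 1)
    (A : x * y1 * z1 = e) (B : x * y2 * z2 = e) (C : w1 * y2 * z1 = e) (D : w1 * y3 * z2 = e) :
    y1 = y3 * (z2 * z2) := by
  have h1 : y1 * z1 = y2 * z2 := by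
    calc y1 * z1 = x * x * (y1 * z1) := by rw [hx, one_mul]
      _ = x * (x * y1 * z1) := by ring
      _ = x * (x * y2 * z2) := by rw [A, B]
      _ = x * x * (y2 * z2) := by ring
      _ = _ := by rw [hx, one_mul]
  have h2 : y2 * z1 = y3 * z2 := by
    calc y2 * z1 = w1 * w1 * (y2 * z1) := by rw [hw, one_mul]
      _ = w1 * (w1 * y2 * z1) := by ring
      _ = w1 * (w1 * y3 * z2) := by rw [C, D]
      _ = w1 * w1 * (y3 * z2) := by ring
      _ = _ := by rw [hw, one_mul]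
  calc y1 = y1 * (z1 * z1) := by rw [hz1, mul_one]
    _ = (y1 * z1) * z1 := by ring
    _ = (y2 * z1) * z2 := by rw [h1]; ring
    _ = y3 * (z2 * z2) := by rw [h2]; ring

theorem block_two {f : ℕ → ℤ} {n b : ℝ} {e : ℤ} (H : Hyp f n b e) {h : ℕ} {k ρ : ℝ} {P : ℤ}
    (hh : 1 ≤ h) (hk0 : 0 < k) (hk : (h : ℝ) * k ^ 3 = n ^ 2) (hρ : (P : ℝ) - 3 * h * k = ρ)
    (hρ0 : 0 < ρ) (hρ1 : ρ ≤ 1 / (400 * b ^ 2)) (hbig : 400 * h ≤ k * ρ) (y : ℕ)
    (hy : |(y : ℝ) - (k + ρ / (3 * h))| ≤ √(k * ρ / h) / 2) : f y = f (y + 2) := by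
  have hhr : (1 : ℝ) ≤ h := by exact_mod_cast hh
  have hh0 : (0 : ℝ) < h := by linarith
  have hn := H.hn
  have hb := H.hb
  have hn0 : 0 < n := by linarith
  have hb0 : 0 < b := by linarith
  obtain ⟨κ, hκ⟩ : ∃ κ : ℝ, κ = k + ρ / (3 * h) := ⟨_, rfl⟩
  rw [← hκ] at hy
  obtain ⟨S, hS⟩ : ∃ S : ℝ, S = √(k * ρ / h) := ⟨_, rfl⟩
  have hc : 1 / b ≤ 1 / 2 := one_div_le_one_div_of_le (by norm_num) hb
  have hρc : ρ ≤ (1 / b) ^ 2 / 400 := by
    refine hρ1.trans (le_of_eq ?_)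
    field_simp
  obtain ⟨v₀, hv0, hv1, hv⟩ := block_real (u := (y : ℝ) - κ) hhr hk0 hρ0 hρc (by positivity) hc
    (by exact_mod_cast hbig) hn0 hk hκ hy
  rw [← hS] at hy hv1
  -- sizes
  have hS2 : S ^ 2 = k * ρ / h := by rw [hS]; exact Real.sq_sqrt (by positivity)
  have hS0 : 0 ≤ S := by rw [hS]; exact Real.sqrt_nonneg _
  have hρ2 : ρ ≤ 1 / 1600 := by
    refine hρ1.trans ?_
    apply one_div_le_one_div_of_le (by norm_num)
    nlinarith
  have hkS : 1600 * S ^ 2 ≤ k := by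
    rw [hS2]
    have : k * ρ / h ≤ k * (1 / 1600) / 1 := by gcongr
    linarith
  have hS400 : 400 ≤ S ^ 2 := by
    rw [hS2, le_div_iff₀ hh0]; exact hbig
  have hS20 : 20 ≤ S := by nlinarith
  have hκk : k ≤ κ := by rw [hκ]; linarith [div_pos hρ0 (by positivity : (0:ℝ) < 3 * h)]
  have hκbig : 100 * S ≤ κ := by nlinarith
  have hyy := abs_le.1 hy
  have hP : (P : ℝ) = 3 * h * κ := by
    have e1 : (P : ℝ) = 3 * h * k + ρ := by linarith
    rw [e1, hκ]; field_simp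
  -- `z`
  obtain ⟨zi, hzi⟩ : ∃ zi : ℤ, zi = ⌊κ + v₀⌋ := ⟨_, rfl⟩
  have hz1 : (zi : ℝ) ≤ κ + v₀ := by rw [hzi]; exact Int.floor_le _
  have hz2 : κ + v₀ < zi + 1 := by rw [hzi]; exact Int.lt_floor_add_one _
  have hz3 : (2 : ℝ) ≤ zi := by nlinarith
  have hz4 : (2 : ℤ) ≤ zi := by exact_mod_cast hz3
  obtain ⟨z, hz⟩ : ∃ z : ℕ, (z : ℤ) = zi - 1 := ⟨(zi - 1).toNat, Int.toNat_of_nonneg (by omega)⟩
  have hzr : (z : ℝ) = zi - 1 := by exact_mod_cast congrArg (Int.cast : ℤ → ℝ) hz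
  have hz5 : 1 ≤ z := by omega
  -- `Z`
  have hZ1 : (h : ℝ) * 1 ≤ P - h * (y + zi) - h := by
    rw [hP]
    have : (1 : ℝ) ≤ 3 * κ - (y + zi) - 1 := by nlinarith
    have := mul_le_mul_of_nonneg_left this hh0.le
    linarith
  have hZ2 : (h : ℤ) ≤ P - h * (y + zi) - h := by
    have : (h : ℝ) ≤ P - h * (y + zi) - h := by linarith
    exact_mod_cast this
  obtain ⟨Z, hZ⟩ : ∃ Z : ℕ, (Z : ℤ) = P - h * (y + zi) - h :=
    ⟨(P - h * (y + zi) - h).toNat, Int.toNat_of_nonneg (by omega)⟩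
  have hZr : (Z : ℝ) = P - h * (y + zi) - h := by exact_mod_cast congrArg (Int.cast : ℤ → ℝ) hZ
  have hZ3 : 1 ≤ Z := by omega
  have hypos : 1 ≤ y := by
    have : (1 : ℝ) ≤ y := by linarith
    exact_mod_cast this
  have hvr1 : v₀ - 1 < (zi : ℝ) - κ := by linarith
  have hvr2 : (zi : ℝ) - κ ≤ v₀ := by linarith
  have W := hv ((zi : ℝ) - κ) hvr1 hvr2
  have win : ∀ m : ℕ, n ^ 2 < (m : ℝ) ∧ (m : ℝ) ≤ n ^ 2 + 1 / b * n → f m = e := by
    intro m ⟨h1, h2⟩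
    apply H.win m h1
    refine h2.trans (le_of_eq ?_)
    ring
  have P1 : f ((Z + h) * y * (z + 1)) = e := by
    apply win
    have := W 0 0 (Or.inl ⟨rfl, rfl⟩)
    convert this using 2 <;> (push_cast; rw [hZr, hzr, hP]; ring)
  have P2 : f ((Z + h) * (y + 1) * z) = e := by
    apply win
    have := W 1 (-1) (Or.inr (Or.inl ⟨rfl, rfl⟩))
    convert this using 2 <;> (push_cast; rw [hZr, hzr, hP]; ring)
  have P3 : f (Z * (y + 1) * (z + 1)) = e := by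
    apply win
    have := W 1 0 (Or.inr (Or.inr (Or.inl ⟨rfl, rfl⟩)))
    convert this using 2 <;> (push_cast; rw [hZr, hzr, hP]; ring)
  have P4 : f (Z * (y + 2) * z) = e := by
    apply win
    have := W 2 (-1) (Or.inr (Or.inr (Or.inr ⟨rfl, rfl⟩)))
    convert this using 2 <;> (push_cast; rw [hZr, hzr, hP]; ring)
  have hf := H.cm
  rw [hf.mul _ _ (Nat.mul_pos (by omega) (by omega)) (by omega), hf.mul _ _ (by omega) (by omega)]
    at P1 P2 P3 P4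
  have := block_alg (hf.sq (by omega)) (hf.sq (by omega)) (hf.sq (by omega)) P1 P2 P3 P4
  rw [this, hf.sq hz5, mul_one]

theorem block {f : ℕ → ℤ} {n b : ℝ} {e : ℤ} (H : Hyp f n b e) {h : ℕ} {k ρ : ℝ} {P : ℤ}
    (hh : 1 ≤ h) (hk0 : 0 < k) (hk : (h : ℝ) * k ^ 3 = n ^ 2) (hρ : (P : ℝ) - 3 * h * k = ρ)
    (hρ0 : 0 < ρ) (hρ1 : ρ ≤ 1 / (400 * b ^ 2)) (hbig : 400 * h ≤ k * ρ) :
    ∀ w w' : ℕ, |2 * (w : ℝ) - k| ≤ √(k * ρ / h) / 2 - 1 →
      |2 * (w' : ℝ) - k| ≤ √(k * ρ / h) / 2 - 1 → f w = f w' := by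
  have hhr : (1 : ℝ) ≤ h := by exact_mod_cast hh
  have hh0 : (0 : ℝ) < h := by linarith
  have hb := H.hb
  obtain ⟨S, hS⟩ : ∃ S : ℝ, S = √(k * ρ / h) := ⟨_, rfl⟩
  have hS2 : S ^ 2 = k * ρ / h := by rw [hS]; exact Real.sq_sqrt (by positivity)
  have hS0 : 0 ≤ S := by rw [hS]; exact Real.sqrt_nonneg _
  have hρ2 : ρ ≤ 1 / 1600 := by
    refine hρ1.trans ?_
    apply one_div_le_one_div_of_le (by norm_num)
    nlinarith
  have hkS : 1600 * S ^ 2 ≤ k := by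
    rw [hS2]
    have : k * ρ / h ≤ k * (1 / 1600) / 1 := by gcongr
    linarith
  have hS400 : 400 ≤ S ^ 2 := by
    rw [hS2, le_div_iff₀ hh0]; exact hbig
  have hS20 : 20 ≤ S := by nlinarith
  have hkbig : 100 * S ≤ k := by nlinarith
  have hstep : ∀ w : ℕ, |2 * (w : ℝ) - k| ≤ S / 2 - 1 → f w = f (w + 1) := by
    intro w hw
    have hw1 := abs_le.1 hw
    have hwpos : 1 ≤ w := by
      have : (0 : ℝ) < w := by linarith
      exact_mod_cast this
    have ht : ρ / (3 * h) ≤ 1 := by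
      rw [div_le_iff₀ (by positivity)]; nlinarith
    have ht0 : 0 < ρ / (3 * h) := by positivity
    have := block_two H hh hk0 hk hρ hρ0 hρ1 hbig (2 * w) (by
      rw [← hS, abs_le]
      push_cast
      constructor <;> linarith)
    have e2 : 2 * w + 2 = 2 * (w + 1) := by ring
    rw [e2, H.cm.mul _ _ (by omega) (by omega), H.cm.mul _ _ (by omega) (by omega)] at this
    have h2 := H.cm.sq (show 1 ≤ 2 by norm_num)
    calc f w = f 2 * f 2 * f w := by rw [h2, one_mul]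
      _ = f 2 * (f 2 * f w) := by ring
      _ = f 2 * (f 2 * f (w + 1)) := by rw [this]
      _ = f 2 * f 2 * f (w + 1) := by ring
      _ = _ := by rw [h2, one_mul]
  have hchain : ∀ (w d : ℕ), |2 * (w : ℝ) - k| ≤ S / 2 - 1 →
      |2 * ((w + d : ℕ) : ℝ) - k| ≤ S / 2 - 1 → f w = f (w + d) := by
    intro w d hw
    have hw1 := abs_le.1 hw
    induction d with
    | zero => intro _; rfl
    | succ d ih =>
      intro hd
      have hd1 := abs_le.1 hd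
      push_cast at hd1
      have hd2 : |2 * ((w + d : ℕ) : ℝ) - k| ≤ S / 2 - 1 := by
        rw [abs_le]; push_cast
        have : (0 : ℝ) ≤ d := by positivity
        constructor <;> linarith
      rw [ih hd2, hstep _ hd2, add_assoc]
  intro w w' hw hw'
  rw [← hS] at hw hw'
  rcases le_total w w' with h1 | h1
  · obtain ⟨d, rfl⟩ := Nat.exists_eq_add_of_le h1
    exact hchain w d hw hw'
  · obtain ⟨d, rfl⟩ := Nat.exists_eq_add_of_le h1
    exact (hchain w' d hw' hw).symm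

end Pool.Agent.SSQ
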