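import Mathlib
import Pool.Agent.SSQ.Defs
import Pool.Agent.SSQ.Block

set_option autoImplicit false

/-!
# Good multipliers have blocks
-/

namespace Pool.Agent.SSQ

open Pool.Agent.SqrtParity

theorem kk_pos {n h : ℝ} (hn : 0 < n) (hh : 0 < h) : 0 < kk n h := by
  unfold kk; positivity

theorem kk_cube {n h : ℝ} (hn : 0 < n) (hh : 0 < h) : h * kk n h ^ 3 = n ^ 2 := by
  have : kk n h ^ 3 = n ^ 2 / h := by
    unfold kk
    rw [← Real.rpow_natCast, ← Real.rpow_mul (by positivity)]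
    norm_num
  rw [this]; field_simp

theorem FF_eq {n h : ℝ} (hn : 0 < n) (hh : 0 < h) : FF n h = 3 * h * kk n h := by
  have h1 : (n * h) ^ ((2 : ℝ) / 3) = h * kk n h := by
    have e1 : ((n * h) ^ ((2 : ℝ) / 3)) ^ 3 = (n * h) ^ 2 := by
      rw [← Real.rpow_natCast, ← Real.rpow_mul (by positivity)]
      norm_num
    have e2 : (h * kk n h) ^ 3 = h ^ 2 * (h * kk n h ^ 3) := by ring
    have e3 : ((n * h) ^ ((2 : ℝ) / 3)) ^ 3 = (h * kk n h) ^ 3 := by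
      rw [e1, e2, kk_cube hn hh]; ring
    exact (pow_left_inj₀ (by positivity) (mul_pos hh (kk_pos hn hh)).le (by norm_num)).1 e3
  unfold FF
  rw [h1]; ring

theorem good_blk {f : ℕ → ℤ} {n b : ℝ} {e : ℤ} (H : Hyp f n b e) {h J : ℕ} (hh : 1 ≤ h)
    (hg : Good n b J h) (hbig : 320000 * b ^ 2 * (J : ℝ) ^ 4 * h ≤ kk n h) :
    ∃ (j : ℕ) (κ : ℤ), Blk f n b J h j κ := by
  obtain ⟨j, hj1, hjJ, P, hP1, hP2⟩ := hg
  have hn := H.hn
  have hb := H.hb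
  have hn0 : 0 < n := by linarith
  have hb0 : 0 < b := by linarith
  have hh0 : (0 : ℝ) < h := by exact_mod_cast hh
  have hj0 : (0 : ℝ) < j := by exact_mod_cast hj1
  have hj1r : (1 : ℝ) ≤ j := by exact_mod_cast hj1
  have hjJr : (j : ℝ) ≤ J := by exact_mod_cast hjJ
  have hk0 := kk_pos hn0 hh0
  have hk3 := kk_cube hn0 hh0
  have hF := FF_eq hn0 hh0
  obtain ⟨k, hk⟩ : ∃ k : ℝ, k = kk n h := ⟨_, rfl⟩
  rw [← hk] at hk0 hk3 hF hbig
  obtain ⟨ρ, hρ⟩ : ∃ ρ : ℝ, ρ = P - j ^ 2 * FF n h := ⟨_, rfl⟩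
  rw [← hρ] at hP1 hP2
  have hρ0 : 0 < ρ := lt_of_lt_of_le (by positivity) hP1
  have hjh : 1 ≤ j ^ 3 * h := Nat.mul_pos (by positivity) (by omega)
  have hB := block H (h := j ^ 3 * h) (k := k / j) (P := P) (ρ := ρ) hjh (by positivity)
    (by push_cast; rw [← hk3]; field_simp) (by push_cast; rw [hρ, hF]; field_simp) hρ0 hP2
    (by
      push_cast
      have e1 : 400 * ((j : ℝ) ^ 3 * h) ≤ k / j * (1 / (800 * b ^ 2)) := by
        rw [div_mul_div_comm, mul_one, le_div_iff₀ (by positivity)]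
        calc 400 * ((j : ℝ) ^ 3 * h) * (j * (800 * b ^ 2)) = 320000 * b ^ 2 * (j : ℝ) ^ 4 * h := by ring
          _ ≤ 320000 * b ^ 2 * (J : ℝ) ^ 4 * h := by gcongr
          _ ≤ k := hbig
      refine e1.trans ?_
      gcongr)
  have hs : √(k / j * ρ / ((j ^ 3 * h : ℕ) : ℝ)) = √(k * ρ / h) / j ^ 2 := by
    have : k / j * ρ / ((j ^ 3 * h : ℕ) : ℝ) = (k * ρ / h) / (j ^ 2) ^ 2 := by
      push_cast; field_simp
    rw [this, Real.sqrt_div' _ (by positivity), Real.sqrt_sq (by positivity)]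
  rw [hs] at hB
  -- reduce the condition
  have hred : ∀ w : ℕ, |2 * ((j * w : ℕ) : ℝ) - k| ≤ Ih n b J h →
      |2 * (w : ℝ) - k / j| ≤ √(k * ρ / h) / j ^ 2 / 2 - 1 := by
    intro w hw
    have e1 : 2 * ((j * w : ℕ) : ℝ) - k = j * (2 * (w : ℝ) - k / j) := by
      push_cast; field_simp
    rw [e1, abs_mul, abs_of_pos hj0] at hw
    have hJ0 : (0 : ℝ) < J := by linarith
    have e2 : Ih n b J h ≤ j * (√(k * ρ / h) / j ^ 2 / 2 - 1) := by
      unfold Ih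
      rw [← hk]
      have s1 : √(k / (800 * b ^ 2 * h)) ≤ √(k * ρ / h) := by
        apply Real.sqrt_le_sqrt
        calc k / (800 * b ^ 2 * h) = k * (1 / (800 * b ^ 2)) / h := by field_simp
          _ ≤ k * ρ / h := by gcongr
      have s2 : √(k / (800 * b ^ 2 * h)) / (2 * J) ≤ √(k * ρ / h) / (2 * j) := by gcongr
      have s3 : (j : ℝ) * (√(k * ρ / h) / j ^ 2 / 2 - 1) = √(k * ρ / h) / (2 * j) - j := by
        field_simp
      rw [s3]
      linarith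
    exact le_of_mul_le_mul_left (hw.trans e2) hj0
  by_cases hex : ∃ u : ℕ, 1 ≤ u ∧ j ∣ u ∧ |2 * (u : ℝ) - k| ≤ Ih n b J h
  · obtain ⟨u₀, hu1, hu2, hu3⟩ := hex
    refine ⟨j, f u₀, hj1, hjJ, H.cm.one_or u₀ hu1, ?_⟩
    intro u hu hju hu'
    rw [← hk] at hu'
    obtain ⟨w, rfl⟩ := hju
    obtain ⟨w₀, rfl⟩ := hu2
    have hw : 1 ≤ w := Nat.pos_of_ne_zero (by rintro rfl; simp at hu)
    have hw0 : 1 ≤ w₀ := Nat.pos_of_ne_zero (by rintro rfl; simp at hu1)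
    rw [H.cm.mul _ _ hj1 hw, H.cm.mul _ _ hj1 hw0, hB w w₀ (hred w hu') (hred w₀ hu3)]
  · refine ⟨j, 1, hj1, hjJ, Or.inl rfl, ?_⟩
    intro u hu hju hu'
    exact absurd ⟨u, hu, hju, by rw [hk]; exact hu'⟩ hex

end Pool.Agent.SSQ
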