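import Mathlib
import Pool.Agent.SqrtParity.Chain

set_option autoImplicit false

/-!
# The number of prime factors in a set, and counting in disjoint short intervals
-/

namespace Pool.Agent.SSQ

open Pool.Agent.SqrtParity Finset

open Classical in
/-- the number of prime factors of `m`, counted with multiplicity, that belong to `P` -/
noncomputable def omegaP (P : Set ℕ) (m : ℕ) : ℕ :=
  m.primeFactorsList.countP (fun q => decide (q ∈ P))

/-- the sign `(-1) ^ omegaP P m` -/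
noncomputable def sg (P : Set ℕ) (m : ℕ) : ℤ := (-1) ^ omegaP P m

theorem sg_cm (P : Set ℕ) : CM (sg P) where
  one_or n _ := neg_one_pow_eq_or ℤ _
  mul a b ha hb := by
    have h : omegaP P (a * b) = omegaP P a + omegaP P b := by
      have hp := Nat.perm_primeFactorsList_mul (a := a) (b := b) (by omega) (by omega)
      rw [omegaP, omegaP, omegaP, hp.countP_eq, List.countP_append]
    rw [sg, h, pow_add]; rfl

theorem sg_prime {P : Set ℕ} {p : ℕ} (hp : p.Prime) (hP : p ∈ P) : sg P p = -1 := by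
  have : omegaP P p = 1 := by
    rw [omegaP, Nat.primeFactorsList_prime hp]
    simp [hP]
  rw [sg, this, pow_one]

theorem even_of_sg {P : Set ℕ} {m : ℕ} (h : sg P m = 1) : Even (omegaP P m) := by
  rcases Nat.even_or_odd (omegaP P m) with h4 | h4
  · exact h4
  · rw [sg, h4.neg_one_pow] at h; norm_num at h

theorem odd_of_sg {P : Set ℕ} {m : ℕ} (h : sg P m = -1) : Odd (omegaP P m) := by
  rcases Nat.even_or_odd (omegaP P m) with h4 | h4
  · rw [sg, h4.neg_one_pow] at h; norm_num at h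
  · exact h4

/-- disjoint short intervals inside `(X, X + n)` -/
theorem many {σ : ℝ} (hσ0 : 0 < σ) (hσ1 : σ ≤ 1 / 4) : ∃ n0 : ℕ, 2 ≤ n0 ∧ ∀ n : ℕ, n0 ≤ n →
    ∀ X : ℕ, n ^ 2 - n ≤ X → X ≤ n ^ 2 → ∀ (pr : ℕ → Prop) (_ : DecidablePred pr),
      (∀ x : ℝ, X ≤ x → x ≤ X + n → ∃ m : ℕ, x < m ∧ (m : ℝ) ≤ x + x ^ (1 / 2 - σ) ∧ pr m) →
      (n : ℝ) ^ σ ≤ (((Ioo X (X + n)).filter pr).card : ℝ) := by
  have hlim := (tendsto_rpow_atTop hσ0).comp (tendsto_natCast_atTop_atTop (R := ℝ))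
  obtain ⟨n1, hn1⟩ := Filter.eventually_atTop.1 (hlim.eventually_ge_atTop (8 : ℝ))
  refine ⟨max n1 2, le_max_right _ _, ?_⟩
  intro n hn X hX1 hX2 pr _ hpr
  have hn1' : n1 ≤ n := le_trans (le_max_left _ _) hn
  have hn2 : 2 ≤ n := le_trans (le_max_right _ _) hn
  have h8 : (8 : ℝ) ≤ (n : ℝ) ^ σ := hn1 n hn1'
  have hnr : (2 : ℝ) ≤ n := by exact_mod_cast hn2
  have hn0 : (0 : ℝ) < n := by linarith
  obtain ⟨s, hs⟩ : ∃ s : ℝ, s = 2 * (n : ℝ) ^ (1 - 2 * σ) := ⟨_, rfl⟩
  have hs0 : 0 < s := by rw [hs]; positivity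
  obtain ⟨K, hK⟩ : ∃ K : ℕ, K = ⌈(n : ℝ) ^ σ⌉₊ := ⟨_, rfl⟩
  have hK1 : (n : ℝ) ^ σ ≤ K := by rw [hK]; exact Nat.le_ceil _
  have hK2 : (K : ℝ) < (n : ℝ) ^ σ + 1 := by rw [hK]; exact Nat.ceil_lt_add_one (by positivity)
  have hpp : (n : ℝ) ^ σ * (n : ℝ) ^ σ * (n : ℝ) ^ (1 - 2 * σ) = n := by
    rw [← Real.rpow_add hn0, ← Real.rpow_add hn0]
    have : σ + σ + (1 - 2 * σ) = 1 := by ring
    rw [this, Real.rpow_one]
  have hKs : (K : ℝ) * s < n := by
    have e1 : (K : ℝ) * s < ((n : ℝ) ^ σ + 1) * s := mul_lt_mul_of_pos_right hK2 hs0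
    have e2 : ((n : ℝ) ^ σ + 1) * s ≤ n := by
      rw [hs]
      have hp : 0 < (n : ℝ) ^ (1 - 2 * σ) := by positivity
      calc ((n : ℝ) ^ σ + 1) * (2 * (n : ℝ) ^ (1 - 2 * σ))
          ≤ ((n : ℝ) ^ σ * (n : ℝ) ^ σ) * (n : ℝ) ^ (1 - 2 * σ) := by
            have : 2 * ((n : ℝ) ^ σ + 1) ≤ (n : ℝ) ^ σ * (n : ℝ) ^ σ := by nlinarith
            nlinarith
        _ = n := hpp
    linarith
  have hX3 : X + n ≤ 4 * n ^ 2 := by nlinarith
  have hX4 : (X : ℝ) + n ≤ (2 * n) ^ 2 := by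
    have : ((X + n : ℕ) : ℝ) ≤ ((4 * n ^ 2 : ℕ) : ℝ) := by exact_mod_cast hX3
    push_cast at this
    linarith
  have hlen : ∀ x : ℝ, (X : ℝ) ≤ x → x ≤ X + n → x ^ (1 / 2 - σ) ≤ s := by
    intro x h1 h2
    have hx0 : 0 ≤ x := le_trans (by positivity) h1
    calc x ^ (1 / 2 - σ) ≤ ((2 * (n : ℝ)) ^ 2) ^ (1 / 2 - σ) :=
          Real.rpow_le_rpow hx0 (h2.trans hX4) (by linarith)
      _ = (2 * (n : ℝ)) ^ (1 - 2 * σ) := by
          rw [← Real.rpow_natCast, ← Real.rpow_mul (by positivity)]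
          congr 1; push_cast; ring
      _ = 2 ^ (1 - 2 * σ) * (n : ℝ) ^ (1 - 2 * σ) := Real.mul_rpow (by norm_num) hn0.le
      _ ≤ 2 ^ (1 : ℝ) * (n : ℝ) ^ (1 - 2 * σ) := by
          gcongr
          · norm_num
          · linarith
      _ = s := by rw [hs, Real.rpow_one]
  have hex : ∀ i : ℕ, i < K → ∃ m : ℕ, (X : ℝ) + i * s < m ∧ (m : ℝ) ≤ X + (i + 1) * s ∧ pr m := by
    intro i hi
    have hi' : (i : ℝ) + 1 ≤ K := by exact_mod_cast hi
    have hi0 : (0 : ℝ) ≤ i := by positivity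
    have h1 : (X : ℝ) ≤ X + i * s := by
      have := mul_nonneg hi0 hs0.le
      linarith
    have h2 : (X : ℝ) + i * s ≤ X + n := by
      have : (i : ℝ) * s ≤ K * s := mul_le_mul_of_nonneg_right (by linarith) hs0.le
      linarith
    obtain ⟨m, hm1, hm2, hm3⟩ := hpr _ h1 h2
    refine ⟨m, hm1, ?_, hm3⟩
    have := hlen _ h1 h2
    linarith
  choose! g hg using hex
  have hcard : (range K).card ≤ ((Ioo X (X + n)).filter pr).card := by
    apply Finset.card_le_card_of_injOn g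
    · intro i hi
      have hi : i < K := by simpa using hi
      obtain ⟨h1, h2, h3⟩ := hg i hi
      have hi' : (i : ℝ) + 1 ≤ K := by exact_mod_cast hi
      have hi0 : (0 : ℝ) ≤ i := by positivity
      rw [mem_coe, mem_filter, mem_Ioo]
      refine ⟨⟨?_, ?_⟩, h3⟩
      · have : (X : ℝ) < g i := by
          have := mul_nonneg hi0 hs0.le
          linarith
        exact_mod_cast this
      · have : (g i : ℝ) < X + n := by
          have : ((i : ℝ) + 1) * s ≤ K * s := by gcongr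
          linarith
        exact_mod_cast this
    · intro i hi j hj hij
      have hi : i < K := by simpa using hi
      have hj : j < K := by simpa using hj
      obtain ⟨h1, h2, -⟩ := hg i hi
      obtain ⟨h1', h2', -⟩ := hg j hj
      by_contra hne
      rcases lt_or_gt_of_ne hne with h | h
      · have : ((i : ℝ) + 1) ≤ j := by exact_mod_cast h
        have : ((i : ℝ) + 1) * s ≤ j * s := by gcongr
        have : (g i : ℝ) < g j := by linarith
        rw [hij] at this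
        exact lt_irrefl _ this
      · have : ((j : ℝ) + 1) ≤ i := by exact_mod_cast h
        have : ((j : ℝ) + 1) * s ≤ i * s := by gcongr
        have : (g j : ℝ) < g i := by linarith
        rw [hij] at this
        exact lt_irrefl _ this
  rw [card_range] at hcard
  calc (n : ℝ) ^ σ ≤ K := hK1
    _ ≤ _ := by exact_mod_cast hcard

end Pool.Agent.SSQ
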