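import Pool.Agent.SSQ.Pair

set_option autoImplicit false

/-!
# Three multipliers in arithmetic progression
-/

namespace Pool.Agent.SSQ

open Pool.Agent.SqrtParity Finset

/-- three good multipliers in arithmetic progression -/
theorem ap {f : ℕ → ℤ} (hf : CM f) {n b : ℝ} (hn : 1 ≤ n) (hb : 2 ≤ b)
    {J h a j₁ j₂ j₃ : ℕ} {κ₁ κ₂ κ₃ : ℤ} (ha : 1 ≤ a) (hah : a < h)
    (B₁ : Blk f n b J (h - a) j₁ κ₁) (B₂ : Blk f n b J h j₂ κ₂) (B₃ : Blk f n b J (h + a) j₃ κ₃)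
    (c1 : 12 * ((h + a : ℕ) : ℝ) * J ^ 2 ≤ Ih n b J ((h - a : ℕ) : ℝ))
    (c2 : 12 * ((h + a : ℕ) : ℝ) * J ^ 2 ≤ Ih n b J (h : ℝ))
    (c3 : 12 * ((h + a : ℕ) : ℝ) * J ^ 2 ≤ Ih n b J ((h + a : ℕ) : ℝ))
    (c4 : kk n ((h - a : ℕ) : ℝ) * ((2 * a : ℝ) / ((h - a : ℕ) : ℝ)) ^ 3 ≤ Ih n b J (h : ℝ))
    (c5 : kk n ((h - a : ℕ) : ℝ) * ((2 * a : ℝ) / ((h - a : ℕ) : ℝ)) ^ 3
      ≤ Ih n b J ((h + a : ℕ) : ℝ)) :
    f (3 * h - 2 * a) = f (3 * h + 2 * a) := by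
  have hg0 : (0 : ℝ) < ((h - a : ℕ) : ℝ) := by
    have : 0 < h - a := by omega
    exact_mod_cast this
  have ha0 : (0 : ℝ) < a := by exact_mod_cast ha
  have hh0 : (0 : ℝ) < h := by exact_mod_cast (by omega : 0 < h)
  have hcast : ((h - a : ℕ) : ℝ) = h - a := Nat.cast_sub hah.le
  have hk0 : 0 < kk n ((h - a : ℕ) : ℝ) := Pr.kk_pos hn hg0
  have hhle : (h : ℝ) ≤ ((h + a : ℕ) : ℝ) := by push_cast; linarith
  have hle12 : 12 * (h : ℝ) * J ^ 2 ≤ 12 * ((h + a : ℕ) : ℝ) * J ^ 2 := by gcongr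
  have p1 := pair hf hn hb B₁ B₂ (by omega) (by omega) (hle12.trans c1) (hle12.trans c2) (by
    refine le_trans ?_ c4
    have e : (h : ℝ) - ((h - a : ℕ) : ℝ) = a := by rw [hcast]; ring
    rw [e]
    gcongr
    linarith)
  have p2 := pair hf hn hb B₂ B₃ (by omega) (by omega) c2 c3 (by
    refine le_trans ?_ c5
    have e : ((h + a : ℕ) : ℝ) - h = a := by push_cast; ring
    rw [e]
    have e2 : kk n h ≤ kk n ((h - a : ℕ) : ℝ) := Pr.kk_anti hg0 (by rw [hcast]; linarith)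
    have e3 : (a : ℝ) / h ≤ 2 * a / ((h - a : ℕ) : ℝ) := by
      gcongr
      · linarith
      · omega
    gcongr)
  have p3 := pair hf hn hb B₁ B₃ (by omega) (by omega) c1 c3 (by
    have e : ((h + a : ℕ) : ℝ) - ((h - a : ℕ) : ℝ) = 2 * a := by
      rw [hcast]; push_cast; ring
    rw [e]
    exact c5)
  rw [show h - a + 2 * h = 3 * h - a by omega, show 2 * (h - a) + h = 3 * h - 2 * a by omega] at p1
  rw [show h + 2 * (h + a) = 3 * h + 2 * a by ring, show 2 * h + (h + a) = 3 * h + a by ring] at p2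
  rw [show h - a + 2 * (h + a) = 3 * h + a by omega,
    show 2 * (h - a) + (h + a) = 3 * h - a by omega] at p3
  have s1 := hf.sq (n := 3 * h - a) (by omega)
  have s2 := hf.sq (n := 3 * h + a) (by omega)
  have s3 := hf.sq (n := 3 * h + 2 * a) (by omega)
  have k1 : κ₁ * κ₁ = 1 := by rcases B₁.2.2.1 with h | h <;> rw [h] <;> norm_num
  have k2 : κ₂ * κ₂ = 1 := by rcases B₂.2.2.1 with h | h <;> rw [h] <;> norm_num
  have k3 : κ₃ * κ₃ = 1 := by rcases B₃.2.2.1 with h | h <;> rw [h] <;> norm_num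
  have key : f (3 * h - 2 * a) * f (3 * h + 2 * a) = 1 := by
    calc f (3 * h - 2 * a) * f (3 * h + 2 * a)
        = (f (3 * h - a) * f (3 * h - a)) * (f (3 * h + a) * f (3 * h + a)) *
            (f (3 * h - 2 * a) * f (3 * h + 2 * a)) := by rw [s1, s2]; ring
      _ = (f (3 * h - a) * f (3 * h - 2 * a)) * (f (3 * h + 2 * a) * f (3 * h + a)) *
            (f (3 * h + a) * f (3 * h - a)) := by ring
      _ = (κ₁ * κ₂) * (κ₂ * κ₃) * (κ₁ * κ₃) := by rw [p1, p2, p3]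
      _ = (κ₁ * κ₁) * (κ₂ * κ₂) * (κ₃ * κ₃) := by ring
      _ = 1 := by rw [k1, k2, k3]; norm_num
  calc f (3 * h - 2 * a) = f (3 * h - 2 * a) * (f (3 * h + 2 * a) * f (3 * h + 2 * a)) := by
        rw [s3, mul_one]
    _ = (f (3 * h - 2 * a) * f (3 * h + 2 * a)) * f (3 * h + 2 * a) := by ring
    _ = f (3 * h + 2 * a) := by rw [key, one_mul]

end Pool.Agent.SSQ
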