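import Mathlib
import Pool.Agent.SSQ.Defs

set_option autoImplicit false

/-!
# Many pairs with a large common gap
-/

namespace Pool.Agent.SSQ

open Finset

theorem big_gap {S : Finset ℕ} {R : ℕ} {δ : ℝ} (hS : ∀ s ∈ S, s < R) (hδ : 0 < δ)
    (hδ1 : δ ≤ 1) (hc : δ * R ≤ S.card) (h8 : 8 ≤ δ * R) :
    ∃ q : ℕ, 1 ≤ q ∧ δ * R / 8 ≤ q ∧ δ ^ 2 / 4 * R ≤ (S.filter (fun s => s + q ∈ S)).card := by
  by_contra hcon
  push Not at hcon
  have _ := hδ1
  have hR0 : (0 : ℝ) < R := by
    by_contra h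
    push Not at h
    nlinarith
  -- pairs
  obtain ⟨A, hA⟩ : ∃ A : Finset (ℕ × ℕ), A = (S ×ˢ S).filter (fun p => p.1 < p.2) := ⟨_, rfl⟩
  have h1 : S.offDiag.card ≤ 2 * A.card := by
    have hsub : S.offDiag ⊆ A ∪ A.image Prod.swap := by
      intro p hp
      rw [mem_offDiag] at hp
      rw [mem_union, mem_image]
      rcases lt_or_gt_of_ne hp.2.2 with h | h
      · left
        rw [hA, mem_filter, mem_product]
        exact ⟨⟨hp.1, hp.2.1⟩, h⟩
      · right
        refine ⟨(p.2, p.1), ?_, rfl⟩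
        rw [hA, mem_filter, mem_product]
        exact ⟨⟨hp.2.1, hp.1⟩, h⟩
    have := (card_le_card hsub).trans (card_union_le _ _)
    have h2 := card_image_le (s := A) (f := Prod.swap)
    omega
  have h2 : A.card ≤ ∑ q ∈ Ico 1 R, (S.filter (fun s => s + q ∈ S)).card := by
    have hsub : A ⊆ (Ico 1 R).biUnion
        (fun q => (S.filter (fun s => s + q ∈ S)).image (fun s => (s, s + q))) := by
      intro p hp
      rw [hA, mem_filter, mem_product] at hp
      obtain ⟨⟨a1, a2⟩, a3⟩ := hp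
      rw [mem_biUnion]
      refine ⟨p.2 - p.1, ?_, ?_⟩
      · rw [mem_Ico]
        have := hS _ a2
        omega
      · rw [mem_image]
        refine ⟨p.1, ?_, ?_⟩
        · rw [mem_filter]
          refine ⟨a1, ?_⟩
          have : p.1 + (p.2 - p.1) = p.2 := by omega
          rw [this]; exact a2
        · have : p.1 + (p.2 - p.1) = p.2 := by omega
          rw [this]
    refine (card_le_card hsub).trans (card_biUnion_le.trans ?_)
    exact sum_le_sum (fun q _ => card_image_le)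
  have h3 : ∀ q ∈ Ico 1 R, ((S.filter (fun s => s + q ∈ S)).card : ℝ)
      ≤ (if (q : ℝ) < δ * R / 8 then (S.card : ℝ) else 0) + δ ^ 2 / 4 * R := by
    intro q hq
    rw [mem_Ico] at hq
    have hd : 0 ≤ δ ^ 2 / 4 * R := by positivity
    split_ifs with h
    · have : ((S.filter (fun s => s + q ∈ S)).card : ℝ) ≤ S.card := by
        exact_mod_cast card_filter_le _ _
      linarith
    · have := hcon q hq.1 (not_lt.1 h)
      linarith
  have h4 : ((∑ q ∈ Ico 1 R, (S.filter (fun s => s + q ∈ S)).card : ℕ) : ℝ)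
      ≤ (δ * R / 8) * S.card + R * (δ ^ 2 / 4 * R) := by
    push_cast
    refine (sum_le_sum h3).trans ?_
    rw [sum_add_distrib, sum_ite, sum_const_zero, add_zero, sum_const, sum_const, nsmul_eq_mul,
      nsmul_eq_mul, Nat.card_Ico]
    have c1 : ((((Ico 1 R).filter (fun q : ℕ => (q : ℝ) < δ * R / 8)).card : ℕ) : ℝ) ≤ δ * R / 8 := by
      have hsub : (Ico 1 R).filter (fun q : ℕ => (q : ℝ) < δ * R / 8) ⊆ Icc 1 ⌊δ * R / 8⌋₊ := by
        intro q hq
        rw [mem_filter, mem_Ico] at hq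
        rw [mem_Icc]
        exact ⟨hq.1.1, Nat.le_floor hq.2.le⟩
      have := card_le_card hsub
      rw [Nat.card_Icc, Nat.add_sub_cancel] at this
      calc ((((Ico 1 R).filter (fun q : ℕ => (q : ℝ) < δ * R / 8)).card : ℕ) : ℝ)
          ≤ (⌊δ * R / 8⌋₊ : ℝ) := by exact_mod_cast this
        _ ≤ _ := Nat.floor_le (by positivity)
    have c2 : (((R - 1 : ℕ)) : ℝ) ≤ R := by exact_mod_cast Nat.sub_le _ _
    gcongr
  have h5 : S.offDiag.card = S.card * S.card - S.card := offDiag_card S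
  have h6 : (8 : ℝ) ≤ S.card := h8.trans hc
  have h7 : ((S.offDiag.card : ℕ) : ℝ) = (S.card : ℝ) * S.card - S.card := by
    rw [h5, Nat.cast_sub (Nat.le_mul_self _)]
    push_cast; ring
  have h8' : ((S.offDiag.card : ℕ) : ℝ)
      ≤ 2 * ((δ * R / 8) * S.card + R * (δ ^ 2 / 4 * R)) := by
    have e1 : ((S.offDiag.card : ℕ) : ℝ) ≤ 2 * (A.card : ℝ) := by exact_mod_cast h1
    have e2 : (A.card : ℝ) ≤ ((∑ q ∈ Ico 1 R, (S.filter (fun s => s + q ∈ S)).card : ℕ) : ℝ) := by
      exact_mod_cast h2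
    linarith
  rw [h7] at h8'
  have e3 : (δ * R) * (δ * R) ≤ (S.card : ℝ) * S.card := by gcongr
  have e4 : (δ * R) * (S.card : ℝ) ≤ (S.card : ℝ) * S.card := by gcongr
  nlinarith

end Pool.Agent.SSQ
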