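import Mathlib
import Pool.Agent.SSQ.Defs
import Pool.Agent.SSQ.Pairs

set_option autoImplicit false

/-!
# Anti-concentration from fifth differences (Hilbert cubes)
-/

namespace Pool.Agent.SSQ

open Finset

theorem near_Dq {g : ℕ → ℝ} {T : Finset ℕ} {τ : ℝ} (q : ℕ)
    (h : ∀ i ∈ T, ∃ m : ℤ, |g i - m| < τ) :
    ∀ i ∈ T.filter (fun s => s + q ∈ T), ∃ m : ℤ, |Dq q g i - m| < 2 * τ := by
  intro i hi
  rw [mem_filter] at hi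
  obtain ⟨m, hm⟩ := h i hi.1
  obtain ⟨m', hm'⟩ := h (i + q) hi.2
  refine ⟨m' - m, ?_⟩
  rw [abs_lt] at hm hm' ⊢
  unfold Dq
  push_cast
  constructor <;> linarith [hm.1, hm.2, hm'.1, hm'.2]

theorem anti_step {T : Finset ℕ} {R : ℕ} {δ : ℝ} (hS : ∀ s ∈ T, s < R) (hδ : 0 < δ)
    (hδ1 : δ ≤ 1) (hc : δ * R ≤ T.card) (h8 : 8 ≤ δ * R) :
    ∃ q : ℕ, 1 ≤ q ∧ δ * R / 8 ≤ q ∧
      δ ^ 2 / 4 * R ≤ (T.filter (fun s => s + q ∈ T)).card ∧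
      (∀ s ∈ T.filter (fun s => s + q ∈ T), s < R) := by
  obtain ⟨q, h1, h2, h3⟩ := big_gap hS hδ hδ1 hc h8
  exact ⟨q, h1, h2, h3, fun s hs => hS s (mem_filter.1 hs).1⟩

theorem anti {g : ℕ → ℝ} {R : ℕ} {l₁ l₂ τ δ : ℝ} (hl1 : 0 < l₁)
    (h1 : ∀ q₁ q₂ q₃ q₄ q₅ s : ℕ, 1 ≤ q₁ → 1 ≤ q₂ → 1 ≤ q₃ → 1 ≤ q₄ → 1 ≤ q₅ →
      s + q₁ + q₂ + q₃ + q₄ + q₅ < R →
      l₁ * (q₁ * q₂ * q₃ * q₄ * q₅) ≤ |Dq q₁ (Dq q₂ (Dq q₃ (Dq q₄ (Dq q₅ g)))) s|)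
    (h2 : ∀ q₁ q₂ q₃ q₄ q₅ s : ℕ, 1 ≤ q₁ → 1 ≤ q₂ → 1 ≤ q₃ → 1 ≤ q₄ → 1 ≤ q₅ →
      s + q₁ + q₂ + q₃ + q₄ + q₅ < R →
      |Dq q₁ (Dq q₂ (Dq q₃ (Dq q₄ (Dq q₅ g)))) s| ≤ l₂ * (q₁ * q₂ * q₃ * q₄ * q₅))
    (hl2 : l₂ * R ^ 5 ≤ 1 / 4) (hδ : 0 < δ) (hδ1 : δ ≤ 1)
    (hτ : 32 * τ < l₁ * R ^ 5 * (δ ^ 31 / (4 ^ 26 * 8 ^ 5))) (hτ4 : 32 * τ ≤ 1 / 4)
    (hR : 8 ≤ δ ^ 16 / 4 ^ 15 * R) (T : Finset ℕ) (hT : ∀ i ∈ T, i < R)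
    (hT' : ∀ i ∈ T, ∃ m : ℤ, |g i - m| < τ) : (T.card : ℝ) < δ * R := by
  by_contra hcon
  rw [not_lt] at hcon
  have hR0 : (0 : ℝ) < R := by
    rcases Nat.eq_zero_or_pos R with h | h
    · subst h
      norm_num at hR
    · exact_mod_cast h
  -- the densities
  set d1 : ℝ := δ ^ 2 / 4 with hd1
  set d2 : ℝ := d1 ^ 2 / 4 with hd2
  set d3 : ℝ := d2 ^ 2 / 4 with hd3
  set d4 : ℝ := d3 ^ 2 / 4 with hd4
  have e4 : d4 = δ ^ 16 / 4 ^ 15 := by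
    rw [hd4, hd3, hd2, hd1]; ring
  have p1 : 0 < d1 := by positivity
  have p2 : 0 < d2 := by positivity
  have p3 : 0 < d3 := by positivity
  have p4 : 0 < d4 := by positivity
  have key : ∀ x : ℝ, 0 < x → x ≤ 1 → x ^ 2 / 4 ≤ x := by
    intro x hx hx1
    nlinarith
  have o1 : d1 ≤ δ := key δ hδ hδ1
  have o1' : d1 ≤ 1 := o1.trans hδ1
  have o2 : d2 ≤ d1 := key d1 p1 o1'
  have o2' : d2 ≤ 1 := o2.trans o1'
  have o3 : d3 ≤ d2 := key d2 p2 o2'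
  have o3' : d3 ≤ 1 := o3.trans o2'
  have o4 : d4 ≤ d3 := key d3 p3 o3'
  have o4' : d4 ≤ 1 := o4.trans o3'
  have r4 : 8 ≤ d4 * R := by rw [e4]; exact hR
  have r3 : 8 ≤ d3 * R := r4.trans (mul_le_mul_of_nonneg_right o4 hR0.le)
  have r2 : 8 ≤ d2 * R := r3.trans (mul_le_mul_of_nonneg_right o3 hR0.le)
  have r1 : 8 ≤ d1 * R := r2.trans (mul_le_mul_of_nonneg_right o2 hR0.le)
  have r0 : 8 ≤ δ * R := r1.trans (mul_le_mul_of_nonneg_right o1 hR0.le)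
  obtain ⟨q1, a1, b1, c1, s1⟩ := anti_step hT hδ hδ1 hcon r0
  obtain ⟨q2, a2, b2, c2, s2⟩ := anti_step s1 p1 o1' c1 r1
  obtain ⟨q3, a3, b3, c3, s3⟩ := anti_step s2 p2 o2' c2 r2
  obtain ⟨q4, a4, b4, c4, s4⟩ := anti_step s3 p3 o3' c3 r3
  obtain ⟨q5, a5, b5, c5, s5⟩ := anti_step s4 p4 o4' c4 r4
  set T1 := T.filter (fun s => s + q1 ∈ T) with hT1
  set T2 := T1.filter (fun s => s + q2 ∈ T1) with hT2
  set T3 := T2.filter (fun s => s + q3 ∈ T2) with hT3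
  set T4 := T3.filter (fun s => s + q4 ∈ T3) with hT4
  set T5 := T4.filter (fun s => s + q5 ∈ T4) with hT5
  have n1 := near_Dq q1 hT'
  have n2 := near_Dq q2 n1
  have n3 := near_Dq q3 n2
  have n4 := near_Dq q4 n3
  have n5 := near_Dq q5 n4
  have hpos : (0 : ℝ) < T5.card := lt_of_lt_of_le (by positivity) c5
  have hne : T5.Nonempty := by
    rw [← Finset.card_pos]
    exact_mod_cast hpos
  obtain ⟨s, hs⟩ := hne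
  have m4 : s + q5 ∈ T4 := (mem_filter.1 hs).2
  have m3 : s + q5 + q4 ∈ T3 := (mem_filter.1 m4).2
  have m2 : s + q5 + q4 + q3 ∈ T2 := (mem_filter.1 m3).2
  have m1 : s + q5 + q4 + q3 + q2 ∈ T1 := (mem_filter.1 m2).2
  have m0 : s + q5 + q4 + q3 + q2 + q1 ∈ T := (mem_filter.1 m1).2
  have hlt : s + q5 + q4 + q3 + q2 + q1 < R := hT _ m0
  obtain ⟨M, hM⟩ := n5 s hs
  have L := h1 q5 q4 q3 q2 q1 s a5 a4 a3 a2 a1 hlt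
  have U := h2 q5 q4 q3 q2 q1 s a5 a4 a3 a2 a1 hlt
  set D := Dq q5 (Dq q4 (Dq q3 (Dq q2 (Dq q1 g)))) s with hD
  have hlt' : (s : ℝ) + q5 + q4 + q3 + q2 + q1 < R := by exact_mod_cast hlt
  have s0 : (0 : ℝ) ≤ s := Nat.cast_nonneg s
  have A1 : (1 : ℝ) ≤ q1 := by exact_mod_cast a1
  have A2 : (1 : ℝ) ≤ q2 := by exact_mod_cast a2
  have A3 : (1 : ℝ) ≤ q3 := by exact_mod_cast a3
  have A4 : (1 : ℝ) ≤ q4 := by exact_mod_cast a4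
  have A5 : (1 : ℝ) ≤ q5 := by exact_mod_cast a5
  have B1 : (q1 : ℝ) ≤ R := by linarith
  have B2 : (q2 : ℝ) ≤ R := by linarith
  have B3 : (q3 : ℝ) ≤ R := by linarith
  have B4 : (q4 : ℝ) ≤ R := by linarith
  have B5 : (q5 : ℝ) ≤ R := by linarith
  have hprod : (0 : ℝ) < (q5 : ℝ) * q4 * q3 * q2 * q1 := by positivity
  have hprodR : (q5 : ℝ) * q4 * q3 * q2 * q1 ≤ R ^ 5 := by
    calc (q5 : ℝ) * q4 * q3 * q2 * q1 ≤ R * R * R * R * R := by gcongr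
      _ = R ^ 5 := by ring
  have hl2' : 0 ≤ l₂ := by
    by_contra hneg
    rw [not_le] at hneg
    have := mul_neg_of_neg_of_pos hneg hprod
    linarith [abs_nonneg D]
  have hDq : |D| ≤ 1 / 4 := by
    calc |D| ≤ l₂ * ((q5 : ℝ) * q4 * q3 * q2 * q1) := U
      _ ≤ l₂ * R ^ 5 := mul_le_mul_of_nonneg_left hprodR hl2'
      _ ≤ 1 / 4 := hl2
  have hM' : |D - M| < 1 / 4 := by
    have : 2 * (2 * (2 * (2 * (2 * τ)))) ≤ 1 / 4 := by linarith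
    exact lt_of_lt_of_le hM this
  have hM0 : M = 0 := by
    have hh : |(M : ℝ)| < 1 := by
      rw [abs_lt] at hM' ⊢
      rw [abs_le] at hDq
      constructor <;> linarith [hM'.1, hM'.2, hDq.1, hDq.2]
    have : |M| < 1 := by exact_mod_cast hh
    exact Int.abs_lt_one_iff.1 this
  have hsmall : |D| < 32 * τ := by
    rw [hM0] at hM
    simp only [Int.cast_zero, sub_zero] at hM
    linarith
  have low : l₁ * R ^ 5 * (δ ^ 31 / (4 ^ 26 * 8 ^ 5)) ≤ l₁ * ((q5 : ℝ) * q4 * q3 * q2 * q1) := by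
    have e : l₁ * R ^ 5 * (δ ^ 31 / (4 ^ 26 * 8 ^ 5)) =
        l₁ * ((d4 * R / 8) * (d3 * R / 8) * (d2 * R / 8) * (d1 * R / 8) * (δ * R / 8)) := by
      rw [hd4, hd3, hd2, hd1]; ring
    rw [e]
    apply mul_le_mul_of_nonneg_left _ hl1.le
    gcongr
  linarith [L, low, hτ, hsmall]

end Pool.Agent.SSQ
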