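import Mathlib
import Pool.Agent.SSQ.Defs
import Pool.Agent.SqrtOne.Weyl

set_option autoImplicit false

/-!
# Quadratic phases are dense modulo 2, with explicit constants
-/

namespace Pool.Agent.SSQ

open Real Finset Pool.Agent.H33 Pool.Agent.SqrtOne

theorem dense_explicit {ε : ℝ} (hε : 0 < ε) {H : ℕ} (hH1 : 2 / ε ^ 2 < H) (hHpos : 1 ≤ H)
    {β γ η : ℝ} {L : ℕ} (hη : 0 < η)
    (hgen : ∀ q : ℕ, 1 ≤ q → q ≤ H * (16 * H ^ 2) → ∀ m : ℤ, η ≤ |q * γ - m|)
    (hC : ((16 * H ^ 2 : ℕ) : ℝ) ≤ η * L) (φ : ℝ) :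
    ∃ a < L, ∃ j : ℤ, |β * a - γ * a ^ 2 - φ - 2 * j| ≤ ε := by
  have hHr : (1 : ℝ) ≤ H := by exact_mod_cast hHpos
  obtain ⟨H', hH'⟩ : ∃ H' : ℕ, H' = 16 * H ^ 2 := ⟨_, rfl⟩
  rw [← hH'] at hgen hC
  have hH'1 : 1 ≤ H' := by rw [hH']; nlinarith
  have hH'r : (H' : ℝ) = 16 * H ^ 2 := by rw [hH']; push_cast; ring
  by_contra hcon
  push Not at hcon
  have hL : (0 : ℝ) < L := by
    rcases Nat.eq_zero_or_pos L with h | h
    · exfalso
      rw [h] at hC
      simp at hC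
      omega
    · exact_mod_cast h
  obtain ⟨T, hT⟩ : ∃ T : ℕ → ℝ, ∀ a, T a = (β * a - γ * a ^ 2 - φ) / 2 := ⟨_, fun _ => rfl⟩
  have hTa : ∀ a < L, ∀ m : ℤ, ε / 2 ≤ |T a - m| := by
    intro a ha m
    have e1 := hcon a ha m
    have e2 : T a - m = (β * a - γ * a ^ 2 - φ - 2 * m) / 2 := by rw [hT]; ring
    rw [e2, abs_div, abs_two]
    linarith
  have hup : ∑ a ∈ range L, ‖∑ j ∈ range H, ee (j * T a)‖ ^ 2 ≤ L * (1 / ε ^ 2) := by
    have e1 : ∀ a ∈ range L, ‖∑ j ∈ range H, ee (j * T a)‖ ^ 2 ≤ 1 / ε ^ 2 := by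
      intro a ha
      rw [mem_range] at ha
      have := geom_bound (by positivity : 0 < ε / 2) (hTa a ha) H
      calc ‖∑ j ∈ range H, ee (j * T a)‖ ^ 2 ≤ (1 / (2 * (ε / 2))) ^ 2 := by gcongr
        _ = _ := by field_simp
    refine (sum_le_sum e1).trans ?_
    rw [sum_const, card_range, nsmul_eq_mul]
  -- off-diagonal sums
  have hS : ∀ h : ℕ, 1 ≤ h → h < H → ‖∑ a ∈ range L, ee (h * T a)‖ ≤ L / (2 * H) := by
    intro h h1 h2
    have e1 := weyl_bound (β := β) (Q := H * H') hη hgen h1 (Nat.mul_le_mul_right H' h2.le)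
      hH'1 hC φ
    have e2 : ∑ a ∈ range L, ee (h * ((β * a - γ * a ^ 2 - φ) / 2)) = ∑ a ∈ range L, ee (h * T a) :=
      sum_congr rfl (fun a _ => by rw [hT])
    rw [e2, hH'r] at e1
    apply le_of_sq_le_sq _ (by positivity)
    rw [div_pow, le_div_iff₀ (by positivity)]
    nlinarith
  have hoff : ∀ j i : ℕ, j < H → i < H → j ≠ i →
      ‖∑ a ∈ range L, ee (((j : ℝ) - i) * T a)‖ ≤ L / (2 * H) := by
    intro j i hj hi hne
    rcases lt_or_gt_of_ne hne with h | h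
    · have e1 := hS (i - j) (by omega) (by omega)
      have e2 : ∀ a ∈ range L, ee (((j : ℝ) - i) * T a)
          = (starRingEnd ℂ) (ee (((i - j : ℕ) : ℝ) * T a)) := by
        intro a _
        rw [← ee_neg]
        congr 1
        rw [Nat.cast_sub h.le]; ring
      rw [sum_congr rfl e2, ← map_sum, Complex.norm_conj]
      exact e1
    · have e1 := hS (j - i) (by omega) (by omega)
      have e2 : ∀ a ∈ range L, ee (((j : ℝ) - i) * T a) = ee (((j - i : ℕ) : ℝ) * T a) := by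
        intro a _
        rw [Nat.cast_sub h.le]
      rw [sum_congr rfl e2]
      exact e1
  have hlow : (H : ℝ) * L - H ^ 2 * (L / (2 * H))
      ≤ ∑ a ∈ range L, ‖∑ j ∈ range H, ee (j * T a)‖ ^ 2 := by
    have e1 := sum_sq_expand T L H
    have e2 : ∑ j ∈ range H, ∑ i ∈ range H, ∑ a ∈ range L, ee (((j : ℝ) - i) * T a)
        = (H : ℂ) * L + ∑ j ∈ range H, ∑ i ∈ range H,
          (if j = i then 0 else ∑ a ∈ range L, ee (((j : ℝ) - i) * T a)) := by
      have e3 : ∀ j ∈ range H, ∑ i ∈ range H, ∑ a ∈ range L, ee (((j : ℝ) - i) * T a)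
          = (L : ℂ) + ∑ i ∈ range H,
            (if j = i then 0 else ∑ a ∈ range L, ee (((j : ℝ) - i) * T a)) := by
        intro j hj
        have e4 : (L : ℂ) = ∑ i ∈ range H, (if j = i then (L : ℂ) else 0) := by
          rw [sum_ite_eq, if_pos hj]
        rw [e4, ← sum_add_distrib]
        apply sum_congr rfl
        intro i _
        split_ifs with hji
        · subst hji
          simp [ee_zero]
        · rw [zero_add]
      rw [sum_congr rfl e3, sum_add_distrib, sum_const, card_range, nsmul_eq_mul]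
    have e5 : ‖∑ j ∈ range H, ∑ i ∈ range H,
          (if j = i then 0 else ∑ a ∈ range L, ee (((j : ℝ) - i) * T a))‖
          ≤ H ^ 2 * (L / (2 * H)) := by
      refine (norm_sum_le _ _).trans ?_
      have e6 : ∀ j ∈ range H, ‖∑ i ∈ range H,
          (if j = i then 0 else ∑ a ∈ range L, ee (((j : ℝ) - i) * T a))‖ ≤ H * (L / (2 * H)) := by
        intro j hj
        rw [mem_range] at hj
        refine (norm_sum_le _ _).trans ?_
        have e7 : ∀ i ∈ range H, ‖(if j = i then 0 else ∑ a ∈ range L, ee (((j : ℝ) - i) * T a))‖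
            ≤ L / (2 * H) := by
          intro i hi
          rw [mem_range] at hi
          split_ifs with hji
          · rw [norm_zero]; positivity
          · exact hoff j i hj hi hji
        refine (sum_le_sum e7).trans ?_
        rw [sum_const, card_range, nsmul_eq_mul]
      refine (sum_le_sum e6).trans ?_
      rw [sum_const, card_range, nsmul_eq_mul]
      apply le_of_eq; ring
    have e8 : ∑ a ∈ range L, ‖∑ j ∈ range H, ee (j * T a)‖ ^ 2
        = ‖((∑ a ∈ range L, ‖∑ j ∈ range H, ee (j * T a)‖ ^ 2 : ℝ) : ℂ)‖ := by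
      rw [Complex.norm_real, Real.norm_eq_abs, abs_of_nonneg]
      exact sum_nonneg (fun m _ => by positivity)
    rw [e8, e1, e2]
    have e9 : ‖(H : ℂ) * L‖ = H * L := by
      rw [norm_mul, Complex.norm_natCast, Complex.norm_natCast]
    have e10 := norm_sub_norm_le ((H : ℂ) * L) (-(∑ j ∈ range H, ∑ i ∈ range H,
          (if j = i then 0 else ∑ a ∈ range L, ee (((j : ℝ) - i) * T a))))
    rw [sub_neg_eq_add, norm_neg, e9] at e10
    linarith
  have hH0 : (0 : ℝ) < H := by linarith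
  have h6 : (H : ℝ) * L - H ^ 2 * (L / (2 * H)) = H * L / 2 := by field_simp; ring
  rw [h6] at hlow
  have h7 : (H : ℝ) * L / 2 ≤ L * (1 / ε ^ 2) := hlow.trans hup
  have h8 : L * (H / 2 : ℝ) ≤ L * (1 / ε ^ 2) := by
    calc L * (H / 2 : ℝ) = (H : ℝ) * L / 2 := by ring
      _ ≤ _ := h7
  have h9 := le_of_mul_le_mul_left h8 hL
  have h10 : 2 / ε ^ 2 = 2 * (1 / ε ^ 2) := by ring
  linarith

theorem dense_pow : ∃ K : ℕ, ∀ b : ℝ, 2 ≤ b → ∃ Q : ℕ, 1 ≤ Q ∧ (Q : ℝ) ≤ b ^ K ∧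
    ∀ (G η : ℝ) (J : ℕ), 0 < η →
      (∀ q : ℕ, 1 ≤ q → q ≤ Q → ∀ m : ℤ, η ≤ |2 * q * G - m|) → b ^ K ≤ η * J →
      ∃ j : ℕ, 1 ≤ j ∧ j ≤ J ∧ ∃ P : ℤ, 1 / (800 * b ^ 2) ≤ P - j ^ 2 * G ∧
        P - j ^ 2 * G ≤ 1 / (400 * b ^ 2) := by
  refine ⟨79, ?_⟩
  intro b hb
  have hb0 : 0 < b := by linarith
  obtain ⟨ε, hε⟩ : ∃ ε : ℝ, ε = 1 / (800 * b ^ 2) := ⟨_, rfl⟩
  have hε0 : 0 < ε := by rw [hε]; positivity
  have h2ε : 2 / ε ^ 2 = 1280000 * b ^ 4 := by rw [hε]; field_simp; norm_num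
  obtain ⟨H, hH⟩ : ∃ H : ℕ, H = ⌈2 / ε ^ 2⌉₊ + 1 := ⟨_, rfl⟩
  have hH1 : 2 / ε ^ 2 < H := by
    rw [hH]; push_cast
    have := Nat.le_ceil (2 / ε ^ 2)
    linarith
  have hHpos : 1 ≤ H := by omega
  have hb4 : 1 ≤ b ^ 4 := one_le_pow₀ (by linarith)
  have hHb : (H : ℝ) ≤ b ^ 25 := by
    have e1 : (H : ℝ) ≤ 2 ^ 21 * b ^ 4 := by
      rw [hH]; push_cast
      have := Nat.ceil_lt_add_one (by positivity : 0 ≤ 2 / ε ^ 2)
      rw [h2ε] at this ⊢
      norm_num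
      linarith
    have e2 : (2 : ℝ) ^ 21 ≤ b ^ 21 := pow_le_pow_left₀ (by norm_num) hb 21
    calc (H : ℝ) ≤ 2 ^ 21 * b ^ 4 := e1
      _ ≤ b ^ 21 * b ^ 4 := by gcongr
      _ = b ^ 25 := by ring
  have h16 : (16 : ℝ) ≤ b ^ 4 := by
    calc (16 : ℝ) = 2 ^ 4 := by norm_num
      _ ≤ b ^ 4 := pow_le_pow_left₀ (by norm_num) hb 4
  refine ⟨H * (16 * H ^ 2), Nat.mul_pos hHpos (by positivity), ?_, ?_⟩
  · push_cast
    calc (H : ℝ) * (16 * H ^ 2) ≤ b ^ 25 * (b ^ 4 * (b ^ 25) ^ 2) := by gcongr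
      _ = b ^ 79 := by ring
  · intro G η J hη hgen hJ
    have hC : ((16 * H ^ 2 : ℕ) : ℝ) ≤ η * J := by
      refine le_trans ?_ hJ
      push_cast
      calc (16 : ℝ) * H ^ 2 ≤ b ^ 4 * (b ^ 25) ^ 2 := by gcongr
        _ = b ^ 54 := by ring
        _ ≤ b ^ 79 := pow_le_pow_right₀ (by linarith) (by norm_num)
    obtain ⟨a, haL, j, hj⟩ := dense_explicit hε0 hH1 hHpos (β := 0) (γ := 2 * G) hη
      (fun q h1 h2 m => by
        have := hgen q h1 h2 m
        rwa [(by ring : (q : ℝ) * (2 * G) = 2 * q * G)]) hC (2 * (3 / (1600 * b ^ 2)))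
    have hρ : 1 / (800 * b ^ 2) = 2 / (1600 * b ^ 2) := by field_simp; norm_num
    have hρ' : 1 / (400 * b ^ 2) = 4 / (1600 * b ^ 2) := by field_simp; norm_num
    obtain ⟨t, ht⟩ : ∃ t : ℝ, t = 1 / (1600 * b ^ 2) := ⟨_, rfl⟩
    have ht0 : 0 < t := by rw [ht]; positivity
    have ht1 : t ≤ 1 / 6400 := by
      rw [ht]
      apply one_div_le_one_div_of_le (by norm_num)
      nlinarith
    have e2 : 2 / (1600 * b ^ 2) = 2 * t := by rw [ht]; ring
    have e3 : 3 / (1600 * b ^ 2) = 3 * t := by rw [ht]; ring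
    have e4 : 4 / (1600 * b ^ 2) = 4 * t := by rw [ht]; ring
    rw [hε, hρ, e2, e3, abs_le] at hj
    refine ⟨a, ?_, haL.le, -j, ?_, ?_⟩
    · by_contra h0
      have h0 : a = 0 := by omega
      rw [h0] at hj
      have hj1 : -1 < (j : ℝ) := by
        push_cast at hj; nlinarith
      have hj2 : (j : ℝ) < 0 := by
        push_cast at hj; nlinarith
      have hj3 : (-1 : ℤ) < j := by exact_mod_cast hj1
      have hj4 : (j : ℤ) < 0 := by exact_mod_cast hj2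
      omega
    · rw [hρ, e2]; push_cast; nlinarith
    · rw [hρ', e4]; push_cast; nlinarith

end Pool.Agent.SSQ
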