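import Mathlib
import Pool.Agent.SSQ.Defs
import Pool.Agent.SSQ.Fifth

set_option autoImplicit false

namespace Pool.Agent.SSQ

open Pool.Agent.SqrtParity Finset

/-- a difference along a progression is a difference of the function -/
lemma Dq_prog (G : ℝ → ℝ) (a s : ℝ) (q : ℕ) :
    Dq q (fun i : ℕ => G (a + s * i)) = fun i : ℕ => Dr (s * q) G (a + s * i) := by
  funext i
  simp only [Dq, Dr]
  have : a + s * ((i + q : ℕ) : ℝ) = a + s * i + s * q := by push_cast; ring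
  rw [this]

/-- scaling on the half line -/
lemma Dr_scale {G H : ℝ → ℝ} {c : ℝ} (h : ∀ t : ℝ, 0 ≤ t → G t = c * H t) {u : ℝ} (hu : 0 ≤ u) :
    ∀ t : ℝ, 0 ≤ t → Dr u G t = c * Dr u H t := by
  intro t ht
  simp only [Dr]
  rw [h t ht, h (t + u) (by linarith)]
  ring

/-- negative steps -/
lemma Dr_neg (G : ℝ → ℝ) (u v : ℝ) (σ : ℝ) :
    Dr (-u) (fun x => σ * G (x - v)) = fun x => -σ * Dr u G (x - (v + u)) := by
  funext x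
  simp only [Dr]
  have h1 : x + -u - v = x - (v + u) := by ring
  have h2 : x - (v + u) + u = x - v := by ring
  rw [h1, h2]
  ring

lemma Dr_reflect (G : ℝ → ℝ) (u₁ u₂ u₃ u₄ u₅ x : ℝ) :
    Dr (-u₁) (Dr (-u₂) (Dr (-u₃) (Dr (-u₄) (Dr (-u₅) G)))) x =
      - Dr u₁ (Dr u₂ (Dr u₃ (Dr u₄ (Dr u₅ G)))) (x - (u₅ + u₄ + u₃ + u₂ + u₁)) := by
  have h0 : G = fun x => (1 : ℝ) * G (x - 0) := by funext x; simp
  conv_lhs => rw [h0]
  rw [Dr_neg, Dr_neg, Dr_neg, Dr_neg, Dr_neg]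
  simp

/-- the numerical constant `2 ^ (-13/3)` -/
lemma two_pow_bound : (0.04957 : ℝ) ≤ (2 : ℝ) ^ (-(13 : ℝ) / 3) := by
  have h : ((2 : ℝ) ^ (-(13 : ℝ) / 3)) ^ (3 : ℕ) = 1 / 8192 := by
    rw [← Real.rpow_natCast, ← Real.rpow_mul (by norm_num)]
    have : (-(13 : ℝ) / 3) * ((3 : ℕ) : ℝ) = ((-13 : ℤ) : ℝ) := by push_cast; ring
    rw [this, Real.rpow_intCast]
    norm_num
  by_contra hc
  push Not at hc
  have h0 : (0 : ℝ) ≤ (2 : ℝ) ^ (-(13 : ℝ) / 3) := by positivity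
  have h3 : ((2 : ℝ) ^ (-(13 : ℝ) / 3)) ^ (3 : ℕ) ≤ (0.04957 : ℝ) ^ 3 :=
    pow_le_pow_left₀ h0 hc.le 3
  rw [h] at h3
  norm_num at h3

/-! M9 (FifthSeq.lean): the same along `i ↦ 2 q F(h₀ + s i)`, `s ∈ {-1, 2, 5}`. -/
theorem fifth_seq {n X : ℝ} (hn : 1 ≤ n) (hX : 1 ≤ X) {Q q R : ℕ} (hq : 1 ≤ q) (hqQ : q ≤ Q)
    {h₀ s : ℤ} (hs : s = -1 ∨ s = 2 ∨ s = 5)
    (hr : ∀ i : ℕ, i < R → X ≤ (h₀ + s * i : ℤ) ∧ ((h₀ + s * i : ℤ) : ℝ) ≤ 2 * X)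
    {q₁ q₂ q₃ q₄ q₅ i : ℕ} (h1 : 1 ≤ q₁) (h2 : 1 ≤ q₂) (h3 : 1 ≤ q₃) (h4 : 1 ≤ q₄) (h5 : 1 ≤ q₅)
    (hi : i + q₁ + q₂ + q₃ + q₄ + q₅ < R) :
    1 / 2 * (n ^ ((2 : ℝ) / 3) * X ^ (-(13 : ℝ) / 3)) * (q₁ * q₂ * q₃ * q₄ * q₅)
      ≤ |Dq q₁ (Dq q₂ (Dq q₃ (Dq q₄ (Dq q₅ (fun i : ℕ => 2 * q * FF n (h₀ + s * i : ℤ)))))) i| ∧
    |Dq q₁ (Dq q₂ (Dq q₃ (Dq q₄ (Dq q₅ (fun i : ℕ => 2 * q * FF n (h₀ + s * i : ℤ)))))) i|
      ≤ 50000 * Q * (n ^ ((2 : ℝ) / 3) * X ^ (-(13 : ℝ) / 3)) * (q₁ * q₂ * q₃ * q₄ * q₅) := by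
  have hn0 : (0 : ℝ) ≤ n := by linarith
  have hX0 : (0 : ℝ) < X := by linarith
  set N : ℝ := n ^ ((2 : ℝ) / 3) with hN
  set Y : ℝ := X ^ (-(13 : ℝ) / 3) with hY
  have hN0 : 0 < N := by positivity
  have hY0 : 0 < Y := by positivity
  -- the sequence as a function
  set G : ℝ → ℝ := fun t => 2 * q * FF n t with hG
  have hseq : (fun i : ℕ => 2 * (q : ℝ) * FF n ((h₀ + s * i : ℤ) : ℝ)) =
      fun i : ℕ => G ((h₀ : ℝ) + (s : ℝ) * i) := by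
    funext i
    simp only [hG]
    push_cast
    rfl
  have hGs : ∀ t : ℝ, 0 ≤ t → G t = (6 * q * N) * (fun t : ℝ => t ^ ((2 : ℝ) / 3)) t := by
    intro t ht
    simp only [hG, FF, hN]
    rw [Real.mul_rpow hn0 ht]
    ring
  have hD : Dq q₁ (Dq q₂ (Dq q₃ (Dq q₄ (Dq q₅ (fun i : ℕ => 2 * (q : ℝ) * FF n ((h₀ + s * i : ℤ) : ℝ)))))) i
      = Dr (s * q₁) (Dr (s * q₂) (Dr (s * q₃) (Dr (s * q₄) (Dr (s * q₅) G)))) ((h₀ : ℝ) + s * i) := by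
    rw [hseq, Dq_prog, Dq_prog, Dq_prog, Dq_prog, Dq_prog]
  rw [hD]
  -- general bound
  have key : ∀ (x u₁ u₂ u₃ u₄ u₅ : ℝ), X ≤ x → 0 ≤ u₁ → 0 ≤ u₂ → 0 ≤ u₃ → 0 ≤ u₄ → 0 ≤ u₅ →
      x + u₁ + u₂ + u₃ + u₄ + u₅ ≤ 2 * X →
      (6 * q * N) * (560 / 243 * (2 * X) ^ (-(13 : ℝ) / 3) * (u₁ * u₂ * u₃ * u₄ * u₅)) ≤
        Dr u₁ (Dr u₂ (Dr u₃ (Dr u₄ (Dr u₅ G)))) x ∧
      Dr u₁ (Dr u₂ (Dr u₃ (Dr u₄ (Dr u₅ G)))) x ≤
        (6 * q * N) * (560 / 243 * Y * (u₁ * u₂ * u₃ * u₄ * u₅)) := by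
    intro x u₁ u₂ u₃ u₄ u₅ hx a1 a2 a3 a4 a5 hB
    have e := Dr_scale (Dr_scale (Dr_scale (Dr_scale (Dr_scale hGs a5) a4) a3) a2) a1 x
      (by linarith)
    rw [e]
    have hp := fifth_pos hX0 hx a1 a2 a3 a4 a5 hB
    have hc : (0 : ℝ) ≤ 6 * q * N := by positivity
    exact ⟨mul_le_mul_of_nonneg_left hp.1 hc, mul_le_mul_of_nonneg_left hp.2 hc⟩
  have hpow : (2 * X) ^ (-(13 : ℝ) / 3) = (2 : ℝ) ^ (-(13 : ℝ) / 3) * Y := by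
    rw [Real.mul_rpow (by norm_num) hX0.le]
  have hq1 : (1 : ℝ) ≤ q := by exact_mod_cast hq
  have hqQ1 : (q : ℝ) ≤ Q := by exact_mod_cast hqQ
  set pr : ℝ := (q₁ : ℝ) * q₂ * q₃ * q₄ * q₅ with hpr
  have hpr0 : 0 ≤ pr := by positivity
  have r0 := hr i (by omega)
  have r1 := hr (i + q₁ + q₂ + q₃ + q₄ + q₅) (by omega)
  push_cast at r0 r1
  -- numerical finish
  have fin : ∀ (D σ : ℝ), 1 ≤ σ → σ ≤ 3125 →
      (6 * q * N) * (560 / 243 * (2 * X) ^ (-(13 : ℝ) / 3) * (σ * pr)) ≤ D →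
      D ≤ (6 * q * N) * (560 / 243 * Y * (σ * pr)) →
      1 / 2 * (N * Y) * pr ≤ |D| ∧ |D| ≤ 50000 * Q * (N * Y) * pr := by
    intro D σ hσ1 hσ2 hlo hhi
    have hD0 : 0 ≤ D := by
      refine le_trans ?_ hlo
      positivity
    rw [abs_of_nonneg hD0]
    constructor
    · refine le_trans ?_ hlo
      rw [hpow]
      have hb := two_pow_bound
      have e1 : (6 * (q : ℝ) * N) * (560 / 243 * ((2 : ℝ) ^ (-(13 : ℝ) / 3) * Y) * (σ * pr)) =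
        (6 * 560 / 243 * (2 : ℝ) ^ (-(13 : ℝ) / 3) * (q * σ)) * (N * Y * pr) := by ring
      rw [e1]
      have e2 : (1 / 2 : ℝ) ≤ 6 * 560 / 243 * (2 : ℝ) ^ (-(13 : ℝ) / 3) * (q * σ) := by
        have : (1 : ℝ) ≤ q * σ := by nlinarith
        nlinarith
      calc 1 / 2 * (N * Y) * pr = 1 / 2 * (N * Y * pr) := by ring
        _ ≤ _ := mul_le_mul_of_nonneg_right e2 (by positivity)
    · refine le_trans hhi ?_
      have e1 : (6 * (q : ℝ) * N) * (560 / 243 * Y * (σ * pr)) =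
        (6 * 560 / 243 * (q * σ)) * (N * Y * pr) := by ring
      rw [e1]
      have e2 : 6 * 560 / 243 * ((q : ℝ) * σ) ≤ 50000 * Q := by
        have : (q : ℝ) * σ ≤ Q * 3125 := by
          apply mul_le_mul hqQ1 hσ2 (by linarith) (by positivity)
        nlinarith
      calc _ ≤ 50000 * Q * (N * Y * pr) := mul_le_mul_of_nonneg_right e2 (by positivity)
        _ = _ := by ring
  rcases hs with rfl | rfl | rfl
  · -- `s = -1`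
    have hsr : ∀ t : ℝ, (((-1 : ℤ) : ℝ)) * t = -t := by intro t; push_cast; ring
    simp only [hsr]
    rw [Dr_reflect, abs_neg]
    push_cast at r0 r1
    obtain ⟨k1, k2⟩ := key ((h₀ : ℝ) + -(i : ℝ) - (q₅ + q₄ + q₃ + q₂ + q₁)) q₁ q₂ q₃ q₄ q₅
      (by linarith [r1.1]) (by positivity) (by positivity) (by positivity) (by positivity)
      (by positivity) (by linarith [r0.2])
    apply fin _ 1 le_rfl (by norm_num)
    · simpa [hpr] using k1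
    · simpa [hpr] using k2
  · push_cast at r0 r1 ⊢
    obtain ⟨k1, k2⟩ := key ((h₀ : ℝ) + 2 * (i : ℝ)) (2 * q₁) (2 * q₂) (2 * q₃) (2 * q₄) (2 * q₅)
      (by linarith [r0.1]) (by positivity) (by positivity) (by positivity) (by positivity)
      (by positivity) (by linarith [r1.2])
    have e : (2 * (q₁ : ℝ)) * (2 * q₂) * (2 * q₃) * (2 * q₄) * (2 * q₅) = 32 * pr := by
      rw [hpr]; ring
    rw [e] at k1 k2
    exact fin _ 32 (by norm_num) (by norm_num) k1 k2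
  · push_cast at r0 r1 ⊢
    obtain ⟨k1, k2⟩ := key ((h₀ : ℝ) + 5 * (i : ℝ)) (5 * q₁) (5 * q₂) (5 * q₃) (5 * q₄) (5 * q₅)
      (by linarith [r0.1]) (by positivity) (by positivity) (by positivity) (by positivity)
      (by positivity) (by linarith [r1.2])
    have e : (5 * (q₁ : ℝ)) * (5 * q₂) * (5 * q₃) * (5 * q₄) * (5 * q₅) = 3125 * pr := by
      rw [hpr]; ring
    rw [e] at k1 k2
    exact fin _ 3125 (by norm_num) (by norm_num) k1 k2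

end Pool.Agent.SSQ
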