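import Mathlib
import Pool.Agent.SSQ.Defs
import Pool.Agent.SSQ.Dense
import Pool.Agent.SSQ.Cube
import Pool.Agent.SSQ.FifthSeq

set_option autoImplicit false

/-!
# Bad multipliers are rare in short progressions
-/

namespace Pool.Agent.SSQ

open Pool.Agent.SqrtParity Finset

/-- the cube of `V = n^(2/3) X^(-13/3)` -/
theorem few_V3 {n X : ℝ} (hn : 1 ≤ n) (hX : 1 ≤ X) :
    (n ^ ((2 : ℝ) / 3) * X ^ (-(13 : ℝ) / 3)) ^ 3 * X ^ 13 = n ^ 2 := by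
  have hn0 : 0 < n := by linarith
  have hX0 : 0 < X := by linarith
  rw [mul_pow, ← Real.rpow_natCast (n ^ ((2 : ℝ) / 3)) 3, ← Real.rpow_mul hn0.le,
    ← Real.rpow_natCast (X ^ (-(13 : ℝ) / 3)) 3, ← Real.rpow_mul hX0.le, mul_assoc,
    ← Real.rpow_natCast X 13, ← Real.rpow_add hX0, ← Real.rpow_natCast n 2]
  norm_num

/-- choice of `R` -/
theorem few_R {Y : ℝ} {M : ℕ} (hM : 1 ≤ M) (hY : (M : ℝ) ^ 5 ≤ Y) :
    ∃ R : ℕ, M ≤ R ∧ (R : ℝ) ^ 5 ≤ Y ∧ Y < 32 * (R : ℝ) ^ 5 := by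
  have hM0 : (1 : ℝ) ≤ M := by exact_mod_cast hM
  have hY0 : 0 ≤ Y := le_trans (by positivity) hY
  refine ⟨⌊Y ^ ((1 : ℝ) / 5)⌋₊, ?_, ?_, ?_⟩
  · apply Nat.le_floor
    have : ((M : ℝ) ^ 5) ^ ((1 : ℝ) / 5) = M := by
      rw [← Real.rpow_natCast (M : ℝ) 5, ← Real.rpow_mul (by positivity)]
      norm_num
    rw [← this]
    exact Real.rpow_le_rpow (by positivity) hY (by norm_num)
  · have h1 : (⌊Y ^ ((1 : ℝ) / 5)⌋₊ : ℝ) ≤ Y ^ ((1 : ℝ) / 5) := Nat.floor_le (by positivity)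
    calc (⌊Y ^ ((1 : ℝ) / 5)⌋₊ : ℝ) ^ 5 ≤ (Y ^ ((1 : ℝ) / 5)) ^ 5 :=
          pow_le_pow_left₀ (by positivity) h1 5
      _ = Y := by
          rw [← Real.rpow_natCast (Y ^ ((1 : ℝ) / 5)) 5, ← Real.rpow_mul hY0]
          norm_num
  · have h1 : Y ^ ((1 : ℝ) / 5) < (⌊Y ^ ((1 : ℝ) / 5)⌋₊ : ℝ) + 1 := Nat.lt_floor_add_one _
    have h2 : (1 : ℝ) ≤ ⌊Y ^ ((1 : ℝ) / 5)⌋₊ := by
      have : M ≤ ⌊Y ^ ((1 : ℝ) / 5)⌋₊ := by
        apply Nat.le_floor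
        have : ((M : ℝ) ^ 5) ^ ((1 : ℝ) / 5) = M := by
          rw [← Real.rpow_natCast (M : ℝ) 5, ← Real.rpow_mul (by positivity)]
          norm_num
        rw [← this]
        exact Real.rpow_le_rpow (by positivity) hY (by norm_num)
      have h3 : 1 ≤ ⌊Y ^ ((1 : ℝ) / 5)⌋₊ := le_trans hM this
      exact_mod_cast h3
    have h3 : Y = (Y ^ ((1 : ℝ) / 5)) ^ 5 := by
      rw [← Real.rpow_natCast (Y ^ ((1 : ℝ) / 5)) 5, ← Real.rpow_mul hY0]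
      norm_num
    calc Y = (Y ^ ((1 : ℝ) / 5)) ^ 5 := h3
      _ < ((⌊Y ^ ((1 : ℝ) / 5)⌋₊ : ℝ) + 1) ^ 5 :=
          pow_lt_pow_left₀ h1 (by positivity) (by norm_num)
      _ ≤ (2 * (⌊Y ^ ((1 : ℝ) / 5)⌋₊ : ℝ)) ^ 5 :=
          pow_le_pow_left₀ (by positivity) (by linarith) 5
      _ = 32 * (⌊Y ^ ((1 : ℝ) / 5)⌋₊ : ℝ) ^ 5 := by ring

/-- numerical part: all the hypotheses of `anti` -/
theorem few_num {K₀ Q : ℕ} {b n X : ℝ} (hb : 2 ≤ b) (hQ : 1 ≤ Q) (hQb : (Q : ℝ) ≤ b ^ K₀)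
    (hn : 1 ≤ n) (hX : 1 ≤ X) (hK : n ^ 2 * b ^ (3 * (428 + 81 * K₀)) ≤ X ^ 13) :
    ∃ R : ℕ, 1 ≤ R ∧ (R : ℝ) ^ 15 * n ^ 2 ≤ X ^ 13 ∧
      50000 * Q * (n ^ ((2 : ℝ) / 3) * X ^ (-(13 : ℝ) / 3)) * (R : ℝ) ^ 5 ≤ 1 / 4 ∧
      32 * (1 / b ^ (189 + 32 * K₀)) < 1 / 2 * (n ^ ((2 : ℝ) / 3) * X ^ (-(13 : ℝ) / 3)) *
        (R : ℝ) ^ 5 * ((1 / (7 * (Q : ℝ))) ^ 31 / (4 ^ 26 * 8 ^ 5)) ∧
      8 ≤ (1 / (7 * (Q : ℝ))) ^ 16 / 4 ^ 15 * R := by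
  have hV3 := few_V3 hn hX
  have hn0 : 0 < n := by linarith
  have hX0 : 0 < X := by linarith
  have hV0 : 0 < n ^ ((2 : ℝ) / 3) * X ^ (-(13 : ℝ) / 3) := by positivity
  set V := n ^ ((2 : ℝ) / 3) * X ^ (-(13 : ℝ) / 3) with hV
  have hQ1 : (1 : ℝ) ≤ Q := by exact_mod_cast hQ
  have hQ0 : (0 : ℝ) < Q := by linarith
  have hb0 : 0 < b := by linarith
  have hb1 : 1 ≤ b := by linarith
  have h2b : ∀ m : ℕ, (2 : ℝ) ^ m ≤ b ^ m := fun m => pow_le_pow_left₀ (by norm_num) hb m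
  have hQm : ∀ m : ℕ, (Q : ℝ) ^ m ≤ b ^ (m * K₀) := by
    intro m
    calc (Q : ℝ) ^ m ≤ (b ^ K₀) ^ m := pow_le_pow_left₀ hQ0.le hQb m
      _ = b ^ (m * K₀) := by rw [← pow_mul, mul_comm]
  -- `V b^(428 + 81 K₀) ≤ 1`
  have hVb : V * b ^ (428 + 81 * K₀) ≤ 1 := by
    have h1 : (V * b ^ (428 + 81 * K₀)) ^ 3 ≤ 1 ^ 3 := by
      have h2 : (V * b ^ (428 + 81 * K₀)) ^ 3 * X ^ 13 ≤ X ^ 13 := by
        calc (V * b ^ (428 + 81 * K₀)) ^ 3 * X ^ 13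
            = (V ^ 3 * X ^ 13) * b ^ (3 * (428 + 81 * K₀)) := by
              rw [mul_pow, ← pow_mul, mul_comm (428 + 81 * K₀) 3]; ring
          _ = n ^ 2 * b ^ (3 * (428 + 81 * K₀)) := by rw [hV3]
          _ ≤ X ^ 13 := hK
      have hX13 : 0 < X ^ 13 := by positivity
      rw [one_pow]
      by_contra hcon
      push Not at hcon
      nlinarith
    by_contra hcon
    push Not at hcon
    have := pow_lt_pow_left₀ hcon (by norm_num : (0 : ℝ) ≤ 1) (by norm_num : (3 : ℕ) ≠ 0)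
    linarith
  have hVQ : 2 ^ 428 * (Q : ℝ) ^ 81 * V ≤ 1 := by
    calc 2 ^ 428 * (Q : ℝ) ^ 81 * V ≤ b ^ 428 * b ^ (81 * K₀) * V := by
          apply mul_le_mul_of_nonneg_right _ hV0.le
          exact mul_le_mul (h2b 428) (hQm 81) (by positivity) (by positivity)
      _ = V * b ^ (428 + 81 * K₀) := by rw [pow_add]; ring
      _ ≤ 1 := hVb
  set Y := 1 / (200000 * Q * V) with hY
  have hYV : 200000 * Q * V * Y = 1 := by
    rw [hY]; field_simp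
  have hY0 : 0 < Y := by rw [hY]; positivity
  have hcast : (((2 ^ 82 * Q ^ 16 : ℕ)) : ℝ) = 2 ^ 82 * (Q : ℝ) ^ 16 := by
    rw [Nat.cast_mul, Nat.cast_pow, Nat.cast_pow]
    norm_num
  have hnum : ((2 : ℝ) ^ 82) ^ 5 * 200000 ≤ 2 ^ 428 := by
    rw [← pow_mul]
    calc (2 : ℝ) ^ (82 * 5) * 200000 ≤ 2 ^ (82 * 5) * 2 ^ 18 := by
          apply mul_le_mul_of_nonneg_left _ (by positivity)
          norm_num
      _ = 2 ^ 428 := by rw [← pow_add]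
  have hM : (((2 ^ 82 * Q ^ 16 : ℕ)) : ℝ) ^ 5 ≤ Y := by
    rw [hcast, hY, le_div_iff₀ (by positivity), mul_pow]
    calc ((2 : ℝ) ^ 82) ^ 5 * ((Q : ℝ) ^ 16) ^ 5 * (200000 * Q * V)
        = (((2 : ℝ) ^ 82) ^ 5 * 200000) * (((Q : ℝ) ^ 16) ^ 5 * Q * V) := by
          generalize (2 : ℝ) ^ 82 = z
          ring
      _ ≤ 2 ^ 428 * (((Q : ℝ) ^ 16) ^ 5 * Q * V) :=
          mul_le_mul_of_nonneg_right hnum (by positivity)
      _ = 2 ^ 428 * (Q : ℝ) ^ 81 * V := by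
          generalize (2 : ℝ) ^ 428 = z
          ring
      _ ≤ 1 := hVQ
  obtain ⟨R, hR1, hR2, hR3⟩ := few_R (Nat.one_le_iff_ne_zero.mpr (by positivity)) hM
  have hRM : (2 : ℝ) ^ 82 * (Q : ℝ) ^ 16 ≤ R := by exact_mod_cast hR1
  have hR0 : 1 ≤ R := le_trans (Nat.one_le_iff_ne_zero.mpr (by positivity)) hR1
  have hRV : (R : ℝ) ^ 5 * V ≤ 1 := by
    have h1 : (R : ℝ) ^ 5 * (200000 * Q * V) ≤ 1 := by
      calc (R : ℝ) ^ 5 * (200000 * Q * V) ≤ Y * (200000 * Q * V) :=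
            mul_le_mul_of_nonneg_right hR2 (by positivity)
        _ = 1 := by rw [mul_comm]; exact hYV
    have h2 : (R : ℝ) ^ 5 * V ≤ (R : ℝ) ^ 5 * (200000 * Q * V) := by
      apply mul_le_mul_of_nonneg_left _ (by positivity)
      nlinarith
    linarith
  refine ⟨R, hR0, ?_, ?_, ?_, ?_⟩
  · have h1 : ((R : ℝ) ^ 5 * V) ^ 3 ≤ 1 := pow_le_one₀ (by positivity) hRV
    calc (R : ℝ) ^ 15 * n ^ 2 = ((R : ℝ) ^ 5 * V) ^ 3 * X ^ 13 := by rw [← hV3]; ring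
      _ ≤ 1 * X ^ 13 := mul_le_mul_of_nonneg_right h1 (by positivity)
      _ = X ^ 13 := one_mul _
  · have h1 : 50000 * Q * V * (R : ℝ) ^ 5 ≤ 50000 * Q * V * Y :=
      mul_le_mul_of_nonneg_left hR2 (by positivity)
    have h2 : 50000 * Q * V * Y = 1 / 4 := by linarith
    linarith
  · -- lower bound for `V R^5`
    have h1 : 1 < 12800000 * Q * (1 / 2 * V * (R : ℝ) ^ 5) := by
      have h2 : 200000 * Q * V * Y < 200000 * Q * V * (32 * (R : ℝ) ^ 5) :=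
        mul_lt_mul_of_pos_left hR3 (by positivity)
      rw [hYV] at h2
      linarith
    have h3 : (1 / (7 * (Q : ℝ))) ^ 31 / (4 ^ 26 * 8 ^ 5)
        = 1 / ((7 * (Q : ℝ)) ^ 31 * (4 ^ 26 * 8 ^ 5)) := by
      rw [div_pow, one_pow, div_div]
    rw [h3, mul_one_div, mul_one_div, lt_div_iff₀ (by positivity), div_mul_eq_mul_div,
      div_lt_iff₀ (by positivity)]
    have h4 : 12800000 * 32 * (7 : ℝ) ^ 31 * (4 ^ 26 * 8 ^ 5) ≤ 2 ^ 189 := by norm_num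
    have h5 : 12800000 * Q * (32 * ((7 * (Q : ℝ)) ^ 31 * (4 ^ 26 * 8 ^ 5)))
        ≤ b ^ (189 + 32 * K₀) := by
      calc 12800000 * Q * (32 * ((7 * (Q : ℝ)) ^ 31 * (4 ^ 26 * 8 ^ 5)))
          = (12800000 * 32 * (7 : ℝ) ^ 31 * (4 ^ 26 * 8 ^ 5)) * (Q : ℝ) ^ 32 := by ring
        _ ≤ 2 ^ 189 * (Q : ℝ) ^ 32 := mul_le_mul_of_nonneg_right h4 (by positivity)
        _ ≤ b ^ 189 * b ^ (32 * K₀) := mul_le_mul (h2b 189) (hQm 32) (by positivity) (by positivity)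
        _ = b ^ (189 + 32 * K₀) := by rw [pow_add]
    have h6 : 0 < 1 / 2 * V * (R : ℝ) ^ 5 := by positivity
    have h7 : 12800000 * Q * (32 * ((7 * (Q : ℝ)) ^ 31 * (4 ^ 26 * 8 ^ 5)))
        < 12800000 * Q * (1 / 2 * V * (R : ℝ) ^ 5 * b ^ (189 + 32 * K₀)) := by
      calc 12800000 * Q * (32 * ((7 * (Q : ℝ)) ^ 31 * (4 ^ 26 * 8 ^ 5)))
          ≤ 1 * b ^ (189 + 32 * K₀) := by rw [one_mul]; exact h5
        _ < (12800000 * Q * (1 / 2 * V * (R : ℝ) ^ 5)) * b ^ (189 + 32 * K₀) :=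
            mul_lt_mul_of_pos_right h1 (by positivity)
        _ = 12800000 * Q * (1 / 2 * V * (R : ℝ) ^ 5 * b ^ (189 + 32 * K₀)) := by ring
    exact lt_of_mul_lt_mul_left h7 (by positivity)
  · have h1 : (1 / (7 * (Q : ℝ))) ^ 16 / 4 ^ 15 * R = R / ((7 * (Q : ℝ)) ^ 16 * 4 ^ 15) := by
      rw [div_pow, one_pow, div_div, one_div_mul_eq_div]
    rw [h1, le_div_iff₀ (by positivity)]
    calc 8 * ((7 * (Q : ℝ)) ^ 16 * 4 ^ 15) = (8 * 7 ^ 16 * 4 ^ 15) * (Q : ℝ) ^ 16 := by ring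
      _ ≤ 2 ^ 82 * (Q : ℝ) ^ 16 := by
          apply mul_le_mul_of_nonneg_right _ (by positivity)
          norm_num
      _ ≤ R := hRM

theorem few_bad : ∃ K : ℕ, ∀ b : ℝ, 2 ≤ b → ∃ J : ℕ, 1 ≤ J ∧ (J : ℝ) ≤ b ^ K ∧
    ∀ n X : ℝ, 1 ≤ n → 1 ≤ X → n ^ 2 * b ^ K ≤ X ^ 13 →
      ∃ R : ℕ, 1 ≤ R ∧ (R : ℝ) ^ 15 * n ^ 2 ≤ X ^ 13 ∧
        ∀ h₀ s : ℤ, (s = -1 ∨ s = 2 ∨ s = 5) →
          (∀ i : ℕ, i < R → X ≤ (h₀ + s * i : ℤ) ∧ ((h₀ + s * i : ℤ) : ℝ) ≤ 2 * X) →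
          ∀ T : Finset ℕ, (∀ i ∈ T, i < R) → (∀ i ∈ T, ¬ Good n b J (h₀ + s * i : ℤ)) →
            7 * T.card < R := by
  classical
  obtain ⟨K₀, hK₀⟩ := dense_pow
  refine ⟨3 * (428 + 81 * K₀), fun b hb => ?_⟩
  obtain ⟨Q, hQ1, hQb, hdense⟩ := hK₀ b hb
  have hb0 : 0 < b := by linarith
  have hb1 : 1 ≤ b := by linarith
  set η : ℝ := 1 / b ^ (189 + 32 * K₀) with hη
  have hη0 : 0 < η := by rw [hη]; positivity
  have hpow1 : ∀ m : ℕ, (1 : ℝ) ≤ b ^ m := fun m => one_le_pow₀ hb1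
  refine ⟨⌈b ^ (K₀ + (189 + 32 * K₀))⌉₊, ?_, ?_, ?_⟩
  · exact Nat.one_le_ceil_iff.mpr (by positivity)
  · have h1 : (⌈b ^ (K₀ + (189 + 32 * K₀))⌉₊ : ℝ) < b ^ (K₀ + (189 + 32 * K₀)) + 1 :=
      Nat.ceil_lt_add_one (by positivity)
    have h2 : b ^ (K₀ + (189 + 32 * K₀)) + 1 ≤ b ^ (K₀ + (189 + 32 * K₀) + 1) := by
      rw [pow_succ]
      nlinarith [hpow1 (K₀ + (189 + 32 * K₀))]
    have h3 : b ^ (K₀ + (189 + 32 * K₀) + 1) ≤ b ^ (3 * (428 + 81 * K₀)) :=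
      pow_le_pow_right₀ hb1 (by omega)
    linarith
  · intro n X hn hX hK
    obtain ⟨R, hR0, hR1, hR2, hR3, hR4⟩ := few_num hb hQ1 hQb hn hX hK
    refine ⟨R, hR0, hR1, fun h₀ s hs hr T hT hbad => ?_⟩
    set J : ℕ := ⌈b ^ (K₀ + (189 + 32 * K₀))⌉₊ with hJ
    have hJη : b ^ K₀ ≤ η * J := by
      have h1 : b ^ (K₀ + (189 + 32 * K₀)) ≤ J := Nat.le_ceil _
      rw [hη, one_div_mul_eq_div, le_div_iff₀ (by positivity), ← pow_add]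
      exact h1
    have hV0 : 0 < n ^ ((2 : ℝ) / 3) * X ^ (-(13 : ℝ) / 3) := by
      have hn0 : 0 < n := by linarith
      have hX0 : 0 < X := by linarith
      positivity
    have hQ0 : (1 : ℝ) ≤ Q := by exact_mod_cast hQ1
    have hRpos : (0 : ℝ) < R := by exact_mod_cast hR0
    have hη32 : 32 * η ≤ 1 / 4 := by
      have h1 : (2 : ℝ) ^ 189 ≤ b ^ (189 + 32 * K₀) :=
        le_trans (pow_le_pow_left₀ (by norm_num) hb 189) (pow_le_pow_right₀ hb1 (by omega))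
      rw [hη, mul_one_div, div_le_iff₀ (by positivity)]
      have h2 : (128 : ℝ) ≤ 2 ^ 189 := by norm_num
      linarith
    -- the pieces
    set Tq : ℕ → Finset ℕ := fun q =>
      T.filter (fun i => ∃ m : ℤ, |2 * (q : ℝ) * FF n (h₀ + s * i : ℤ) - m| < η) with hTq
    have hcover : T ⊆ (Finset.Icc 1 Q).biUnion Tq := by
      intro i hi
      by_contra hcon
      apply hbad i hi
      have h1 := hdense (FF n (h₀ + s * i : ℤ)) η J hη0 (fun q hq1 hq2 m => by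
        by_contra h2
        push Not at h2
        apply hcon
        rw [Finset.mem_biUnion]
        exact ⟨q, Finset.mem_Icc.mpr ⟨hq1, hq2⟩, by
          rw [hTq]; exact Finset.mem_filter.mpr ⟨hi, m, h2⟩⟩) hJη
      exact h1
    have hcard : ∀ q ∈ Finset.Icc 1 Q, ((Tq q).card : ℝ) < 1 / (7 * (Q : ℝ)) * R := by
      intro q hq
      obtain ⟨hq1, hq2⟩ := Finset.mem_Icc.mp hq
      refine anti (g := fun i : ℕ => 2 * (q : ℝ) * FF n (h₀ + s * i : ℤ)) (R := R)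
        (l₁ := 1 / 2 * (n ^ ((2 : ℝ) / 3) * X ^ (-(13 : ℝ) / 3)))
        (l₂ := 50000 * Q * (n ^ ((2 : ℝ) / 3) * X ^ (-(13 : ℝ) / 3))) (τ := η)
        (δ := 1 / (7 * (Q : ℝ))) (by positivity) ?_ ?_ hR2 (by positivity) ?_ hR3 hη32 hR4
        (Tq q) ?_ ?_
      · intro q₁ q₂ q₃ q₄ q₅ i h1 h2 h3 h4 h5 hi
        exact (fifth_seq hn hX hq1 hq2 hs hr h1 h2 h3 h4 h5 hi).1
      · intro q₁ q₂ q₃ q₄ q₅ i h1 h2 h3 h4 h5 hi
        exact (fifth_seq hn hX hq1 hq2 hs hr h1 h2 h3 h4 h5 hi).2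
      · rw [div_le_one (by positivity)]; linarith
      · intro i hi
        exact hT i (Finset.mem_filter.mp hi).1
      · intro i hi
        exact (Finset.mem_filter.mp hi).2
    have hsum : (T.card : ℝ) < Q * (1 / (7 * (Q : ℝ)) * R) := by
      have h1 : T.card ≤ ∑ q ∈ Finset.Icc 1 Q, (Tq q).card :=
        le_trans (Finset.card_le_card hcover) Finset.card_biUnion_le
      have h2 : (T.card : ℝ) ≤ ∑ q ∈ Finset.Icc 1 Q, ((Tq q).card : ℝ) := by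
        exact_mod_cast h1
      have h3 : ∑ q ∈ Finset.Icc 1 Q, ((Tq q).card : ℝ)
          < ∑ _q ∈ Finset.Icc 1 Q, (1 / (7 * (Q : ℝ)) * R) :=
        Finset.sum_lt_sum_of_nonempty ⟨1, Finset.mem_Icc.mpr ⟨le_refl 1, hQ1⟩⟩ hcard
      rw [Finset.sum_const, Nat.card_Icc, nsmul_eq_mul] at h3
      have h4 : ((Q + 1 - 1 : ℕ) : ℝ) = Q := by simp
      rw [h4] at h3
      linarith
    have hfin : (Q : ℝ) * (1 / (7 * (Q : ℝ)) * R) = R / 7 := by field_simp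
    rw [hfin] at hsum
    have : (7 : ℝ) * T.card < R := by linarith
    exact_mod_cast this

end Pool.Agent.SSQ
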