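import Mathlib
import Pool.Agent.SSQ.Defs

set_option autoImplicit false

/-!
# Side conditions
-/

namespace Pool.Agent.SSQ

theorem kk_cubeS {n h : ℝ} (hh : 0 < h) : kk n h ^ 3 = n ^ 2 / h := by
  unfold kk
  rw [← Real.rpow_natCast, ← Real.rpow_mul (by positivity)]
  norm_num

theorem kk_nonneg' {n h : ℝ} (hh : 0 < h) : 0 ≤ kk n h := by
  unfold kk
  positivity

theorem le_kk {n h y : ℝ} (hh : 0 < h) (hy : 0 ≤ y) (H : y ^ 3 * h ≤ n ^ 2) : y ≤ kk n h := by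
  rw [← pow_le_pow_iff_left₀ hy (kk_nonneg' hh) (three_ne_zero), kk_cubeS hh,
    le_div_iff₀ hh]
  exact H

theorem absorb {b : ℝ} (hb : 2 ≤ b) {J K₀ : ℕ} (hJ : (J : ℝ) ≤ b ^ K₀) (m i j e : ℕ)
    (h : m + i + K₀ * j ≤ e) : (2 : ℝ) ^ m * b ^ i * (J : ℝ) ^ j ≤ b ^ e := by
  have hb1 : 1 ≤ b := by linarith
  calc (2 : ℝ) ^ m * b ^ i * (J : ℝ) ^ j ≤ b ^ m * b ^ i * (b ^ K₀) ^ j := by gcongr
    _ = b ^ (m + i + K₀ * j) := by rw [← pow_mul, ← pow_add, ← pow_add]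
    _ ≤ b ^ e := pow_le_pow_right₀ hb1 h

/-! M11a (Side.lean): side conditions. -/
theorem side (K₀ : ℕ) : ∃ K : ℕ, ∀ (n b X : ℝ) (J R : ℕ), 1 ≤ n → 2 ≤ b → 1 ≤ J →
    (J : ℝ) ≤ b ^ K₀ → 1 ≤ X → n ^ 2 * b ^ K ≤ X ^ 13 → X ^ 5 * b ^ K ≤ n → 1 ≤ R →
    (R : ℝ) ^ 15 * n ^ 2 ≤ X ^ 13 →
    1000 ≤ X ∧ 100 * (R : ℝ) ≤ X ∧
    (∀ h : ℝ, X ≤ h → h ≤ 2 * X → 320000 * b ^ 2 * (J : ℝ) ^ 4 * h ≤ kk n h ∧
      24 * X * (J : ℝ) ^ 2 ≤ Ih n b J h) ∧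
    (∀ h h' : ℝ, X ≤ h → h ≤ 2 * X → X ≤ h' → h' ≤ 2 * X →
      kk n h * (40 * R / h) ^ 3 ≤ Ih n b J h') := by
  refine ⟨1000 + 20 * K₀, fun n b X J R hn hb hJ1 hJ hX hX1 hX2 hR1 hR => ?_⟩
  set K := 1000 + 20 * K₀ with hK
  have hb1 : 1 ≤ b := by linarith
  have hb0 : 0 < b := by linarith
  have hX0 : 0 < X := by linarith
  have hn0 : 0 < n := by linarith
  have hJr : (1 : ℝ) ≤ J := by exact_mod_cast hJ1
  have hJ0 : (0 : ℝ) < J := by linarith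
  have hRr : (1 : ℝ) ≤ R := by exact_mod_cast hR1
  have hR0 : (0 : ℝ) < R := by linarith
  -- `X^10 b^(2K) ≤ n^2`
  have hn2 : X ^ 10 * b ^ (2 * K) ≤ n ^ 2 := by
    calc X ^ 10 * b ^ (2 * K) = (X ^ 5 * b ^ K) ^ 2 := by
          rw [mul_pow, ← pow_mul, ← pow_mul, mul_comm 2 K]
      _ ≤ n ^ 2 := pow_le_pow_left₀ (by positivity) hX2 2
  have hbn : b ^ (2 * K) ≤ n ^ 2 := by
    refine le_trans ?_ hn2
    exact le_mul_of_one_le_left (by positivity) (one_le_pow₀ hX)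
  have hcond1 : ∀ h : ℝ, X ≤ h → h ≤ 2 * X → 320000 * b ^ 2 * (J : ℝ) ^ 4 * h ≤ kk n h := by
    intro h h1 h2
    have hh : 0 < h := by linarith
    apply le_kk hh (by positivity)
    calc (320000 * b ^ 2 * (J : ℝ) ^ 4 * h) ^ 3 * h
        = 320000 ^ 3 * b ^ 6 * (J : ℝ) ^ 12 * h ^ 4 := by ring
      _ ≤ 2 ^ 57 * b ^ 6 * (J : ℝ) ^ 12 * (2 * X) ^ 4 := by
          gcongr
          norm_num
      _ = (2 ^ 61 * b ^ 6 * (J : ℝ) ^ 12) * X ^ 4 := by ring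
      _ ≤ b ^ (2 * K) * X ^ 10 := by
          apply mul_le_mul _ _ (by positivity) (by positivity)
          · apply absorb hb hJ
            omega
          · exact pow_le_pow_right₀ hX (by norm_num)
      _ = X ^ 10 * b ^ (2 * K) := by ring
      _ ≤ n ^ 2 := hn2
  have hcond2 : ∀ h : ℝ, X ≤ h → h ≤ 2 * X →
      24 * X * (J : ℝ) ^ 2 + J ≤ √(kk n h / (800 * b ^ 2 * h)) / (2 * J) := by
    intro h h1 h2
    have hh : 0 < h := by linarith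
    rw [le_div_iff₀ (by positivity)]
    apply Real.le_sqrt_of_sq_le
    rw [le_div_iff₀ (by positivity)]
    have h3 : (24 * X * (J : ℝ) ^ 2 + J) * (2 * J) ≤ 50 * X * (J : ℝ) ^ 3 := by
      have h4 : (J : ℝ) ≤ X * (J : ℝ) ^ 2 := by
        calc (J : ℝ) = 1 * (J : ℝ) ^ 1 := by ring
          _ ≤ X * (J : ℝ) ^ 2 := by
              apply mul_le_mul hX (pow_le_pow_right₀ hJr (by norm_num)) (by positivity) hX0.le
      calc (24 * X * (J : ℝ) ^ 2 + J) * (2 * J)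
          ≤ (24 * X * (J : ℝ) ^ 2 + X * (J : ℝ) ^ 2) * (2 * J) := by gcongr
        _ = 50 * X * (J : ℝ) ^ 3 := by ring
    calc ((24 * X * (J : ℝ) ^ 2 + J) * (2 * J)) ^ 2 * (800 * b ^ 2 * h)
        ≤ (50 * X * (J : ℝ) ^ 3) ^ 2 * (800 * b ^ 2 * h) := by gcongr
      _ ≤ kk n h := by
          apply le_kk hh (by positivity)
          calc ((50 * X * (J : ℝ) ^ 3) ^ 2 * (800 * b ^ 2 * h)) ^ 3 * h
              = 2000000 ^ 3 * b ^ 6 * (J : ℝ) ^ 18 * X ^ 6 * h ^ 4 := by ring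
            _ ≤ 2 ^ 63 * b ^ 6 * (J : ℝ) ^ 18 * X ^ 6 * (2 * X) ^ 4 := by
                gcongr
                norm_num
            _ = (2 ^ 67 * b ^ 6 * (J : ℝ) ^ 18) * X ^ 10 := by ring
            _ ≤ b ^ (2 * K) * X ^ 10 := by
                apply mul_le_mul_of_nonneg_right _ (by positivity)
                apply absorb hb hJ
                omega
            _ = X ^ 10 * b ^ (2 * K) := by ring
            _ ≤ n ^ 2 := hn2
  refine ⟨?_, ?_, fun h h1 h2 => ⟨hcond1 h h1 h2, ?_⟩, fun h h' h1 h2 h1' h2' => ?_⟩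
  · -- `1000 ≤ X`
    have h1 : (2 : ℝ) ^ 130 ≤ X ^ 13 := by
      calc (2 : ℝ) ^ 130 ≤ b ^ 130 := pow_le_pow_left₀ (by norm_num) hb _
        _ ≤ b ^ K := pow_le_pow_right₀ hb1 (by omega)
        _ ≤ n ^ 2 * b ^ K := le_mul_of_one_le_left (by positivity) (one_le_pow₀ hn)
        _ ≤ X ^ 13 := hX1
    have h2 : (1000 : ℝ) ^ 13 ≤ X ^ 13 := le_trans (by norm_num) h1
    exact (pow_le_pow_iff_left₀ (by norm_num) hX0.le (by norm_num)).1 h2
  · -- `100 R ≤ X`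
    have h1 : (R : ℝ) ^ 15 * b ^ (2 * K) ≤ X ^ 3 := by
      have h2 : ((R : ℝ) ^ 15 * b ^ (2 * K)) * X ^ 10 ≤ X ^ 3 * X ^ 10 := by
        calc ((R : ℝ) ^ 15 * b ^ (2 * K)) * X ^ 10 = (R : ℝ) ^ 15 * (X ^ 10 * b ^ (2 * K)) := by
              ring
          _ ≤ (R : ℝ) ^ 15 * n ^ 2 := by gcongr
          _ ≤ X ^ 13 := hR
          _ = X ^ 3 * X ^ 10 := by ring
      exact le_of_mul_le_mul_right h2 (by positivity)
    have h2 : (100 * (R : ℝ)) ^ 15 ≤ X ^ 15 := by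
      calc (100 * (R : ℝ)) ^ 15 = 100 ^ 15 * (R : ℝ) ^ 15 := by ring
        _ ≤ b ^ (2 * K) * (R : ℝ) ^ 15 := by
            apply mul_le_mul_of_nonneg_right _ (by positivity)
            calc (100 : ℝ) ^ 15 ≤ 2 ^ 105 := by norm_num
              _ ≤ b ^ 105 := pow_le_pow_left₀ (by norm_num) hb _
              _ ≤ b ^ (2 * K) := pow_le_pow_right₀ hb1 (by omega)
        _ = (R : ℝ) ^ 15 * b ^ (2 * K) := by ring
        _ ≤ X ^ 3 := h1
        _ ≤ X ^ 15 := pow_le_pow_right₀ hX (by norm_num)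
    exact (pow_le_pow_iff_left₀ (by positivity) hX0.le (by norm_num)).1 h2
  · -- `24 X J^2 ≤ Ih`
    unfold Ih
    linarith [hcond2 h h1 h2]
  · -- the last condition
    have hh : 0 < h := by linarith
    have hh' : 0 < h' := by linarith
    have hS := hcond2 h' h1' h2'
    have hXJ : (J : ℝ) ≤ 24 * X * (J : ℝ) ^ 2 := by
      have h4 : (J : ℝ) ≤ X * (J : ℝ) ^ 2 := by
        calc (J : ℝ) = 1 * (J : ℝ) ^ 1 := by ring
          _ ≤ X * (J : ℝ) ^ 2 := by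
              apply mul_le_mul hX (pow_le_pow_right₀ hJr (by norm_num)) (by positivity) hX0.le
      have h5 : 0 ≤ X * (J : ℝ) ^ 2 := by positivity
      linarith
    -- the main inequality
    have hmain : (2 ^ 142 * b ^ 6 * (J : ℝ) ^ 6) * (n ^ 2 * (R : ℝ) ^ 18) ≤ X ^ 16 := by
      have h5 : ((2 ^ 142 * b ^ 6 * (J : ℝ) ^ 6) * (n ^ 2 * (R : ℝ) ^ 18)) ^ 5 ≤ (X ^ 16) ^ 5 := by
        have h6 : ((2 ^ 142 * b ^ 6 * (J : ℝ) ^ 6) * (n ^ 2 * (R : ℝ) ^ 18)) ^ 5 * n ^ 2 ≤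
            (X ^ 16) ^ 5 * n ^ 2 := by
          have h7 : (2 : ℝ) ^ 710 = (2 ^ 142) ^ 5 := by rw [← pow_mul]
          have h8 : ∀ c : ℝ, ((c * b ^ 6 * (J : ℝ) ^ 6) * (n ^ 2 * (R : ℝ) ^ 18)) ^ 5 * n ^ 2 =
              (c ^ 5 * b ^ 30 * (J : ℝ) ^ 30) * ((R : ℝ) ^ 15 * n ^ 2) ^ 6 := by
            intro c
            ring
          calc ((2 ^ 142 * b ^ 6 * (J : ℝ) ^ 6) * (n ^ 2 * (R : ℝ) ^ 18)) ^ 5 * n ^ 2
              = (2 ^ 710 * b ^ 30 * (J : ℝ) ^ 30) * ((R : ℝ) ^ 15 * n ^ 2) ^ 6 := by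
                rw [h7]
                exact h8 _
            _ ≤ n ^ 2 * (X ^ 13) ^ 6 := by
                apply mul_le_mul _ _ (by positivity) (by positivity)
                · refine le_trans ?_ hbn
                  apply absorb hb hJ
                  omega
                · exact pow_le_pow_left₀ (by positivity) hR 6
            _ = X ^ 78 * n ^ 2 := by ring
            _ ≤ X ^ 80 * n ^ 2 := by
                apply mul_le_mul_of_nonneg_right _ (by positivity)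
                exact pow_le_pow_right₀ hX (by norm_num)
            _ = (X ^ 16) ^ 5 * n ^ 2 := by ring
        exact le_of_mul_le_mul_right h6 (by positivity)
      exact (pow_le_pow_iff_left₀ (by positivity) (by positivity) (by norm_num)).1 h5
    have hk := kk_cubeS (n := n) hh
    have hk0 := kk_nonneg' (n := n) hh
    set k := kk n h with hkd
    have hy : (4 * J * k * (40 * R / h) ^ 3) ^ 2 * (800 * b ^ 2 * h') ≤ kk n h' := by
      apply le_kk hh' (by positivity)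
      have e1 : ((4 * (J : ℝ) * k * (40 * R / h) ^ 3) ^ 2 * (800 * b ^ 2 * h')) ^ 3 * h' =
          (16 * 40 ^ 6 * 800) ^ 3 * (J : ℝ) ^ 6 * b ^ 6 * (R : ℝ) ^ 18 * (k ^ 3) ^ 2 * h' ^ 4 /
            h ^ 18 := by
        field_simp
        ring
      rw [e1, hk]
      have e2 : (16 * 40 ^ 6 * 800) ^ 3 * (J : ℝ) ^ 6 * b ^ 6 * (R : ℝ) ^ 18 * (n ^ 2 / h) ^ 2 *
          h' ^ 4 / h ^ 18 = (16 * 40 ^ 6 * 800) ^ 3 * (J : ℝ) ^ 6 * b ^ 6 * (R : ℝ) ^ 18 * n ^ 4 *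
          h' ^ 4 / h ^ 20 := by
        field_simp
      rw [e2, div_le_iff₀ (by positivity)]
      calc (16 * 40 ^ 6 * 800) ^ 3 * (J : ℝ) ^ 6 * b ^ 6 * (R : ℝ) ^ 18 * n ^ 4 * h' ^ 4
          ≤ 2 ^ 138 * (J : ℝ) ^ 6 * b ^ 6 * (R : ℝ) ^ 18 * n ^ 4 * (2 * X) ^ 4 := by
            gcongr
            norm_num
        _ = n ^ 2 * (((2 ^ 142 * b ^ 6 * (J : ℝ) ^ 6) * (n ^ 2 * (R : ℝ) ^ 18)) * X ^ 4) := by
            ring
        _ ≤ n ^ 2 * (X ^ 16 * X ^ 4) := by gcongr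
        _ = n ^ 2 * X ^ 20 := by ring
        _ ≤ n ^ 2 * h ^ 20 := by gcongr
    have hsq : 4 * J * k * (40 * R / h) ^ 3 ≤ √(kk n h' / (800 * b ^ 2 * h')) := by
      apply Real.le_sqrt_of_sq_le
      rw [le_div_iff₀ (by positivity)]
      exact hy
    unfold Ih
    have h7 : 2 * (k * (40 * R / h) ^ 3) ≤ √(kk n h' / (800 * b ^ 2 * h')) / (2 * J) := by
      rw [le_div_iff₀ (by positivity)]
      calc 2 * (k * (40 * R / h) ^ 3) * (2 * J) = 4 * J * k * (40 * R / h) ^ 3 := by ring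
        _ ≤ _ := hsq
    linarith

end Pool.Agent.SSQ
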