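import Mathlib
import Pool.Agent.SSQ.Defs
import Pool.Agent.SSQ.GoodBlk
import Pool.Agent.SSQ.AP
import Pool.Agent.SSQ.Few
import Pool.Agent.SSQ.Side

set_option autoImplicit false

/-!
# The step `m → m + 12`
-/

namespace Pool.Agent.SSQ

open Pool.Agent.SqrtParity Finset

/-- six exceptional sets of density less than `1/7` do not cover -/
theorem exists_outside (R : ℕ) (hR : 1 ≤ R) (T : Fin 6 → Finset ℕ)
    (hc : ∀ k, 7 * (T k).card < R) : ∃ i, i < R ∧ ∀ k, i ∉ T k := by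
  by_contra hcon
  push Not at hcon
  have h1 : range R ⊆ (univ : Finset (Fin 6)).biUnion T := by
    intro i hi
    rw [mem_range] at hi
    obtain ⟨k, hk⟩ := hcon i hi
    rw [mem_biUnion]
    exact ⟨k, mem_univ k, hk⟩
  have h2 := (card_le_card h1).trans card_biUnion_le
  rw [card_range] at h2
  have h3 : ∑ k : Fin 6, 7 * (T k).card ≤ ∑ k : Fin 6, (R - 1) :=
    sum_le_sum (fun k _ => by have := hc k; omega)
  rw [← mul_sum, sum_const, card_univ, Fintype.card_fin, smul_eq_mul] at h3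
  omega

/-- one application of `ap` -/
theorem ap_step {f : ℕ → ℤ} {n b : ℝ} {e : ℤ} (H : Hyp f n b e) {J R u a : ℕ} {X : ℝ}
    (hX : 1 ≤ X) (ha : 1 ≤ a) (hu : 1 ≤ u) (haR : 2 * (a : ℝ) ≤ 40 * R)
    (hu1 : X ≤ (u : ℝ)) (hu2 : ((u + 2 * a : ℕ) : ℝ) ≤ 2 * X)
    (s1 : ∀ h : ℝ, X ≤ h → h ≤ 2 * X → 320000 * b ^ 2 * (J : ℝ) ^ 4 * h ≤ kk n h ∧
      24 * X * (J : ℝ) ^ 2 ≤ Ih n b J h)
    (s2 : ∀ h h' : ℝ, X ≤ h → h ≤ 2 * X → X ≤ h' → h' ≤ 2 * X →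
      kk n h * (40 * R / h) ^ 3 ≤ Ih n b J h')
    (g1 : Good n b J (u : ℝ)) (g2 : Good n b J ((u + a : ℕ) : ℝ))
    (g3 : Good n b J ((u + 2 * a : ℕ) : ℝ)) :
    f (3 * u + a) = f (3 * u + 5 * a) := by
  have ha0 : (0 : ℝ) ≤ a := Nat.cast_nonneg a
  push_cast at hu2
  have r1 : X ≤ ((u + a : ℕ) : ℝ) ∧ ((u + a : ℕ) : ℝ) ≤ 2 * X := by
    push_cast; constructor <;> linarith
  have r2 : X ≤ ((u + 2 * a : ℕ) : ℝ) ∧ ((u + 2 * a : ℕ) : ℝ) ≤ 2 * X := by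
    push_cast; constructor <;> linarith
  have r0 : X ≤ (u : ℝ) ∧ (u : ℝ) ≤ 2 * X := by constructor <;> linarith
  obtain ⟨j₁, κ₁, B₁⟩ := good_blk H hu g1 (s1 _ r0.1 r0.2).1
  obtain ⟨j₂, κ₂, B₂⟩ := good_blk H (by omega) g2 (s1 _ r1.1 r1.2).1
  obtain ⟨j₃, κ₃, B₃⟩ := good_blk H (by omega) g3 (s1 _ r2.1 r2.2).1
  have e1 : u + a - a = u := by omega
  have e2 : u + a + a = u + 2 * a := by omega
  have hJ0 : (0 : ℝ) ≤ (J : ℝ) ^ 2 := by positivity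
  have hkey : ∀ h : ℝ, X ≤ h → h ≤ 2 * X → 12 * ((u + 2 * a : ℕ) : ℝ) * (J : ℝ) ^ 2 ≤ Ih n b J h := by
    intro h h1 h2
    refine le_trans ?_ (s1 h h1 h2).2
    apply mul_le_mul_of_nonneg_right _ hJ0
    linarith [r2.2]
  have hu0 : (0 : ℝ) < u := by exact_mod_cast hu
  have hcube : (2 * (a : ℝ) / (u : ℝ)) ^ 3 ≤ (40 * R / (u : ℝ)) ^ 3 := by
    apply pow_le_pow_left₀ (by positivity)
    exact div_le_div_of_nonneg_right haR hu0.le
  have hkk : 0 ≤ kk n (u : ℝ) := by unfold kk; positivity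
  have hkey2 : ∀ h : ℝ, X ≤ h → h ≤ 2 * X → kk n (u : ℝ) * (2 * (a : ℝ) / (u : ℝ)) ^ 3 ≤ Ih n b J h := by
    intro h h1 h2
    exact (mul_le_mul_of_nonneg_left hcube hkk).trans (s2 _ h r0.1 r0.2 h1 h2)
  have hap := ap (h := u + a) (a := a) H.cm H.hn H.hb ha (by omega)
    (by rw [e1]; exact B₁) B₂ (by rw [e2]; exact B₃)
    (by rw [e1, e2]; exact hkey _ r0.1 r0.2) (by rw [e2]; exact hkey _ r1.1 r1.2)
    (by rw [e2]; exact hkey _ r2.1 r2.2) (by rw [e1]; exact hkey2 _ r1.1 r1.2)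
    (by rw [e1, e2]; exact hkey2 _ r2.1 r2.2)
  have e3 : 3 * (u + a) - 2 * a = 3 * u + a := by omega
  have e4 : 3 * (u + a) + 2 * a = 3 * u + 5 * a := by omega
  rw [e3, e4] at hap
  exact hap

theorem step12 : ∃ K : ℕ, ∀ (f : ℕ → ℤ) (n b : ℝ) (e : ℤ), Hyp f n b e →
    ∀ m : ℕ, n ^ 2 * b ^ K ≤ (m : ℝ) ^ 13 → (m : ℝ) ^ 5 * b ^ K ≤ n → f m = f (m + 12) := by
  classical
  obtain ⟨K₁, hK₁⟩ := few_bad
  obtain ⟨K₂, hK₂⟩ := side K₁
  refine ⟨max K₁ K₂ + 26, fun f n b e H m hm1 hm2 => ?_⟩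
  obtain ⟨J, hJ1, hJb, hJ⟩ := hK₁ b H.hb
  have hn1 := H.hn
  have hb2 := H.hb
  have hb0 : (0 : ℝ) < b := by linarith
  have hn2 : (1 : ℝ) ≤ n ^ 2 := one_le_pow₀ hn1
  have hb26 : (2 : ℝ) ^ 26 ≤ b ^ 26 := pow_le_pow_left₀ (by norm_num) hb2 26
  have hbK : (1 : ℝ) ≤ b ^ (max K₁ K₂) := one_le_pow₀ (by linarith)
  have hsplit : b ^ (max K₁ K₂ + 26) = b ^ (max K₁ K₂) * b ^ 26 := pow_add _ _ _
  have hm4 : 4 ≤ m := by
    by_contra hcon
    have h3 : m ≤ 3 := by omega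
    have h4 : (m : ℝ) ^ 13 ≤ 3 ^ 13 := pow_le_pow_left₀ (by positivity) (by exact_mod_cast h3) 13
    have h5 : (1 : ℝ) * (1 * 2 ^ 26) ≤ n ^ 2 * (b ^ (max K₁ K₂) * b ^ 26) := by gcongr
    rw [← hsplit] at h5
    norm_num at h4 h5
    linarith
  set X : ℝ := (m : ℝ) / 4 with hX
  have hmX : (m : ℝ) = 4 * X := by rw [hX]; ring
  have hX1 : 1 ≤ X := by
    rw [hX, le_div_iff₀ (by norm_num)]
    have : (4 : ℝ) ≤ m := by exact_mod_cast hm4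
    linarith
  have hX0 : 0 < X := by linarith
  have hbpow : ∀ k, k ≤ max K₁ K₂ → b ^ k ≤ b ^ (max K₁ K₂) :=
    fun k hk => pow_le_pow_right₀ (by linarith) hk
  have hX13 : ∀ k, k ≤ max K₁ K₂ → n ^ 2 * b ^ k ≤ X ^ 13 := by
    intro k hk
    rw [hmX, mul_pow, hsplit] at hm1
    have h1 : n ^ 2 * (b ^ k * 2 ^ 26) ≤ n ^ 2 * (b ^ (max K₁ K₂) * b ^ 26) := by
      have := hbpow k hk
      gcongr
    have h2 : n ^ 2 * (b ^ k * 2 ^ 26) ≤ 4 ^ 13 * X ^ 13 := h1.trans hm1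
    norm_num at h2
    linarith
  have hX5 : ∀ k, k ≤ max K₁ K₂ → X ^ 5 * b ^ k ≤ n := by
    intro k hk
    refine le_trans ?_ hm2
    rw [hmX, mul_pow, hsplit]
    have h1 := hbpow k hk
    have h2 : (1 : ℝ) ≤ b ^ 26 := one_le_pow₀ (by linarith)
    calc X ^ 5 * b ^ k ≤ X ^ 5 * (b ^ (max K₁ K₂) * b ^ 26) := by
          apply mul_le_mul_of_nonneg_left _ (by positivity)
          calc b ^ k = b ^ k * 1 := (mul_one _).symm
            _ ≤ b ^ (max K₁ K₂) * b ^ 26 := by gcongr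
      _ ≤ 4 ^ 5 * X ^ 5 * (b ^ (max K₁ K₂) * b ^ 26) := by
          apply mul_le_mul_of_nonneg_right _ (by positivity)
          have : 0 < X ^ 5 := by positivity
          linarith
  obtain ⟨R, hR1, hR15, hfew⟩ := hJ n X hn1 hX1 (hX13 K₁ (le_max_left _ _))
  obtain ⟨hX1000, hRX, s1, s2⟩ := hK₂ n b X J R hn1 hb2 hJ1 hJb hX1 (hX13 K₂ (le_max_right _ _))
    (hX5 K₂ (le_max_right _ _)) hR1 hR15
  -- the progression
  set h₁ : ℕ := (m - 4) / 3 with hh₁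
  set a₀ : ℕ := 4 + (m - 4) % 3 with ha₀
  have hma : m = 3 * h₁ + a₀ := by omega
  have ha4 : 4 ≤ a₀ := by omega
  have ha6 : a₀ ≤ 6 := by omega
  have hmaR : (m : ℝ) = 3 * h₁ + a₀ := by exact_mod_cast hma
  have ha4R : (4 : ℝ) ≤ a₀ := by exact_mod_cast ha4
  have ha6R : (a₀ : ℝ) ≤ 6 := by exact_mod_cast ha6
  have hR1R : (1 : ℝ) ≤ R := by exact_mod_cast hR1
  -- the six exceptional sets
  set H₀ : Fin 6 → ℤ := ![(h₁ : ℤ), (h₁ : ℤ) + 5, (h₁ : ℤ) + a₀, (h₁ : ℤ) + a₀ + 2,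
    (h₁ : ℤ) + 2 * a₀, (h₁ : ℤ) + 2 * a₀ - 1] with hH₀
  set S₀ : Fin 6 → ℤ := ![-1, -1, 2, 2, 5, 5] with hS₀
  have hS : ∀ k, S₀ k = -1 ∨ S₀ k = 2 ∨ S₀ k = 5 := by
    intro k; fin_cases k <;> simp [hS₀]
  have hrange : ∀ k, ∀ i : ℕ, i < R → X ≤ (H₀ k + S₀ k * i : ℤ) ∧
      ((H₀ k + S₀ k * i : ℤ) : ℝ) ≤ 2 * X := by
    intro k i hi
    have hi0 : (0 : ℝ) ≤ i := Nat.cast_nonneg i
    have hiR : (i : ℝ) + 1 ≤ R := by exact_mod_cast hi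
    fin_cases k <;>
    · simp only [hH₀, hS₀]
      push_cast
      try simp
      constructor <;> linarith
  set T : Fin 6 → Finset ℕ := fun k =>
    (range R).filter (fun i => ¬ Good n b J ((H₀ k + S₀ k * i : ℤ) : ℝ)) with hT
  have hTc : ∀ k, 7 * (T k).card < R := by
    intro k
    apply hfew (H₀ k) (S₀ k) (hS k) (hrange k)
    · intro i hi; exact mem_range.mp (mem_filter.mp hi).1
    · intro i hi; exact (mem_filter.mp hi).2
  obtain ⟨i, hiR, hi⟩ := exists_outside R hR1 T hTc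
  have hgood : ∀ k, Good n b J ((H₀ k + S₀ k * i : ℤ) : ℝ) := by
    intro k
    by_contra hcon
    exact hi k (mem_filter.mpr ⟨mem_range.mpr hiR, hcon⟩)
  have hi0 : (0 : ℝ) ≤ i := Nat.cast_nonneg i
  have hiR' : (i : ℝ) + 1 ≤ R := by exact_mod_cast hiR
  have hih : i + 1 ≤ h₁ := by
    have : (i : ℝ) + 1 ≤ h₁ := by linarith
    exact_mod_cast this
  obtain ⟨u, hu⟩ : ∃ u, h₁ = u + i := ⟨h₁ - i, by omega⟩
  have huR : (h₁ : ℝ) = u + i := by exact_mod_cast hu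
  have hu1 : 1 ≤ u := by omega
  -- first application
  have A1 := ap_step (u := u) (a := a₀ + 3 * i) (R := R) H hX1 (by omega) hu1
    (by push_cast; linarith) (by linarith) (by push_cast; linarith) s1 s2
    (by
      have h := hgood 0
      have e : ((H₀ 0 + S₀ 0 * i : ℤ) : ℝ) = (u : ℝ) := by
        (simp only [hH₀, hS₀]; push_cast; linarith)
      rwa [e] at h)
    (by
      have h := hgood 2
      have e : ((H₀ 2 + S₀ 2 * i : ℤ) : ℝ) = ((u + (a₀ + 3 * i) : ℕ) : ℝ) := by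
        (simp only [hH₀, hS₀]; push_cast; linarith)
      rwa [e] at h)
    (by
      have h := hgood 4
      have e : ((H₀ 4 + S₀ 4 * i : ℤ) : ℝ) = ((u + 2 * (a₀ + 3 * i) : ℕ) : ℝ) := by
        (simp only [hH₀, hS₀]; push_cast; linarith)
      rwa [e] at h)
  obtain ⟨a', ha'⟩ : ∃ a', a₀ = a' + 3 := ⟨a₀ - 3, by omega⟩
  have ha'R : (a₀ : ℝ) = a' + 3 := by exact_mod_cast ha'
  have A2 := ap_step (u := u + 5) (a := a' + 3 * i) (R := R) H hX1 (by omega) (by omega)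
    (by push_cast; linarith) (by push_cast; linarith) (by push_cast; linarith) s1 s2
    (by
      have h := hgood 1
      have e : ((H₀ 1 + S₀ 1 * i : ℤ) : ℝ) = ((u + 5 : ℕ) : ℝ) := by
        (simp only [hH₀, hS₀]; push_cast; linarith)
      rwa [e] at h)
    (by
      have h := hgood 3
      have e : ((H₀ 3 + S₀ 3 * i : ℤ) : ℝ) = ((u + 5 + (a' + 3 * i) : ℕ) : ℝ) := by
        (simp only [hH₀, hS₀]; push_cast; linarith)
      rwa [e] at h)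
    (by
      have h := hgood 5
      have e : ((H₀ 5 + S₀ 5 * i : ℤ) : ℝ) = ((u + 5 + 2 * (a' + 3 * i) : ℕ) : ℝ) := by
        (simp only [hH₀, hS₀]; push_cast; linarith)
      rwa [e] at h)
  have e1 : 3 * u + (a₀ + 3 * i) = m := by omega
  have e2 : 3 * (u + 5) + (a' + 3 * i) = m + 12 := by omega
  have e3 : 3 * u + 5 * (a₀ + 3 * i) = 3 * (u + 5) + 5 * (a' + 3 * i) := by omega
  rw [e1] at A1
  rw [e2] at A2
  rw [A1, A2, e3]

end Pool.Agent.SSQ
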