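import Mathlib
import Pool.Agent.SSQ.Defs
import Pool.Agent.SSQ.Step

set_option autoImplicit false

/-!
# The value is `1` on all small integers
-/

namespace Pool.Agent.SSQ

open Pool.Agent.SqrtParity Finset

theorem finish_all {f : ℕ → ℤ} (hf : CM f) {M₁ M₂ : ℕ} (h1 : 1 ≤ M₁)
    (h : ∀ m : ℕ, M₁ ≤ m → m ≤ M₂ → f m = f (m + 12)) (h2 : 2 * (M₁ + 12) ≤ M₂) :
    ∀ m : ℕ, 1 ≤ m → 12 * m ≤ M₂ → f m = 1 := by
  obtain ⟨A, hA1, hA2⟩ : ∃ A : ℕ, M₁ ≤ 12 * A ∧ 12 * A ≤ M₁ + 11 :=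
    ⟨(M₁ + 11) / 12, by omega, by omega⟩
  have hA0 : 1 ≤ A := by omega
  have hstep : ∀ a : ℕ, A ≤ a → 12 * a ≤ M₂ → f a = f (a + 1) := by
    intro a ha1 ha2
    have e1 := h (12 * a) (by omega) ha2
    have e2 : 12 * a + 12 = 12 * (a + 1) := by ring
    rw [e2, hf.mul 12 a (by omega) (by omega), hf.mul 12 (a + 1) (by omega) (by omega)] at e1
    have e3 := hf.sq (n := 12) (by omega)
    calc f a = f 12 * f 12 * f a := by rw [e3, one_mul]
      _ = f 12 * (f 12 * f a) := by ring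
      _ = f 12 * (f 12 * f (a + 1)) := by rw [e1]
      _ = f 12 * f 12 * f (a + 1) := by ring
      _ = _ := by rw [e3, one_mul]
  have hconst : ∀ d : ℕ, 12 * (A + d) ≤ M₂ → f (A + d) = f A := by
    intro d
    induction d with
    | zero => intro _; rfl
    | succ d ih =>
      intro hd
      rw [← ih (by omega), hstep (A + d) (by omega) (by omega)]
      congr 1
  have hall : ∀ k : ℕ, k < A → ∀ a : ℕ, A - k ≤ a → 12 * a ≤ M₂ → f a = f A := by
    intro k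
    induction k with
    | zero =>
      intro _ a ha1 ha2
      obtain ⟨d, rfl⟩ := Nat.exists_eq_add_of_le (show A ≤ a by omega)
      exact hconst d ha2
    | succ k ih =>
      intro hk a ha1 ha2
      have ih' := ih (by omega)
      by_cases hak : A - k ≤ a
      · exact ih' a hak ha2
      · have haeq : a = A - (k + 1) := by omega
        have ha0 : 1 ≤ a := by omega
        have f2 : f 2 = 1 := by
          have e1 := ih' (2 * A) (by omega) (by omega)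
          rw [hf.mul 2 A (by omega) hA0] at e1
          have e2 := hf.sq hA0
          calc f 2 = f 2 * (f A * f A) := by rw [e2, mul_one]
            _ = (f 2 * f A) * f A := by ring
            _ = f A * f A := by rw [e1]
            _ = 1 := e2
        have e1 := ih' (2 * a) (by omega) (by omega)
        rw [hf.mul 2 a (by omega) ha0, f2, one_mul] at e1
        exact e1
  have hA' := hall (A - 1) (by omega)
  have f1 : f 1 = 1 := by
    have e1 := hf.mul 1 1 le_rfl le_rfl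
    have e2 := hf.sq (n := 1) le_rfl
    rw [mul_one] at e1
    rw [e1, e2]
  intro m hm1 hm2
  rw [hA' m (by omega) hm2, ← f1, hA' 1 (by omega) (by omega)]

theorem all_one : ∃ K : ℕ, ∀ (f : ℕ → ℤ) (n b : ℝ) (e : ℤ), Hyp f n b e →
    ∀ m : ℕ, 1 ≤ m → (m : ℝ) ^ 5 * b ^ K ≤ n → f m = 1 := by
  obtain ⟨K, hK⟩ := step12
  refine ⟨65 * (K + 2), fun f n b e H p hp hA => ?_⟩
  have hn := H.hn
  have hb := H.hb
  have hn0 : 0 ≤ n := by linarith
  have hb1 : 1 ≤ b := by linarith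
  have hb0 : 0 < b := by linarith
  have hpr : (1 : ℝ) ≤ p := by exact_mod_cast hp
  obtain ⟨y, hy⟩ : ∃ y : ℝ, y = n ^ ((1 : ℝ) / 65) := ⟨_, rfl⟩
  have hy0 : 0 ≤ y := by rw [hy]; exact Real.rpow_nonneg hn0 _
  have hyn : y ^ 65 = n := by
    rw [hy, ← Real.rpow_natCast, ← Real.rpow_mul hn0]
    norm_num
  have hbK : 1 ≤ b ^ K := one_le_pow₀ hb1
  have hy1 : b ^ (K + 2) ≤ y := by
    have e1 : b ^ (65 * (K + 2)) ≤ n := by
      refine le_trans ?_ hA
      have : (1 : ℝ) ≤ (p : ℝ) ^ 5 := one_le_pow₀ hpr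
      have h0 : 0 ≤ b ^ (65 * (K + 2)) := by positivity
      nlinarith
    rw [mul_comm, pow_mul, ← hyn] at e1
    exact (pow_le_pow_iff_left₀ (by positivity) hy0 (by norm_num)).1 e1
  have hb2 : (4 : ℝ) ≤ b ^ 2 := by nlinarith
  have hy2 : 4 * b ^ K ≤ y := by
    refine le_trans ?_ hy1
    rw [pow_add, mul_comm]
    gcongr
  have hy4 : 4 ≤ y := by linarith
  have hy3 : 1 ≤ y := by linarith
  obtain ⟨M₁, hM₁⟩ : ∃ M₁ : ℕ, M₁ = ⌈y ^ 10 * b ^ K⌉₊ := ⟨_, rfl⟩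
  obtain ⟨M₂, hM₂⟩ : ∃ M₂ : ℕ, M₂ = ⌊y ^ 13 / b ^ K⌋₊ := ⟨_, rfl⟩
  have hM1 : y ^ 10 * b ^ K ≤ M₁ := by rw [hM₁]; exact Nat.le_ceil _
  have hM1' : (M₁ : ℝ) < y ^ 10 * b ^ K + 1 := by
    rw [hM₁]; exact Nat.ceil_lt_add_one (by positivity)
  have hM2 : (M₂ : ℝ) ≤ y ^ 13 / b ^ K := by rw [hM₂]; exact Nat.floor_le (by positivity)
  have hy10 : 1 ≤ y ^ 10 := one_le_pow₀ hy3
  have hone : 1 ≤ y ^ 10 * b ^ K := by nlinarith
  refine finish_all H.cm (M₁ := M₁) (M₂ := M₂) ?_ ?_ ?_ p hp ?_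
  · have : (1 : ℝ) ≤ M₁ := hone.trans hM1
    exact_mod_cast this
  · intro m hm1 hm2
    have h1 : y ^ 10 * b ^ K ≤ m := hM1.trans (by exact_mod_cast hm1)
    have h2 : (m : ℝ) ≤ y ^ 13 / b ^ K := le_trans (by exact_mod_cast hm2) hM2
    refine hK f n b e H m ?_ ?_
    · calc n ^ 2 * b ^ K = y ^ 130 * (b ^ K) ^ 1 := by rw [← hyn]; ring
        _ ≤ y ^ 130 * (b ^ K) ^ 13 := by
          gcongr
          norm_num
        _ = (y ^ 10 * b ^ K) ^ 13 := by ring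
        _ ≤ (m : ℝ) ^ 13 := by gcongr
    · calc (m : ℝ) ^ 5 * b ^ K ≤ (y ^ 13 / b ^ K) ^ 5 * b ^ K := by gcongr
        _ = y ^ 65 / (b ^ K) ^ 4 := by
          field_simp
        _ ≤ y ^ 65 / 1 := by
          gcongr
          exact one_le_pow₀ hbK
        _ = n := by rw [div_one, hyn]
  · rw [hM₂]
    apply Nat.le_floor
    push_cast
    rw [le_div_iff₀ (by positivity)]
    have h1 : 2 * ((M₁ : ℝ) + 12) ≤ 28 * (y ^ 10 * b ^ K) := by linarith
    have h16 : 16 * (b ^ K) ^ 2 ≤ y ^ 2 := by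
      calc 16 * (b ^ K) ^ 2 = (4 * b ^ K) ^ 2 := by ring
        _ ≤ y ^ 2 := by gcongr
    calc 2 * ((M₁ : ℝ) + 12) * b ^ K ≤ 28 * (y ^ 10 * b ^ K) * b ^ K := by gcongr
      _ = y ^ 10 * (7 / 4 * (16 * (b ^ K) ^ 2)) := by ring
      _ ≤ y ^ 10 * (7 / 4 * y ^ 2) := by gcongr
      _ ≤ y ^ 10 * (y * y ^ 2) := by
        gcongr
        linarith
      _ = y ^ 13 := by ring
  · rw [hM₂]
    apply Nat.le_floor
    push_cast
    rw [le_div_iff₀ (by positivity)]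
    apply le_of_pow_le_pow_left₀ (n := 5) (by norm_num) (by positivity)
    calc (12 * (p : ℝ) * b ^ K) ^ 5 = (p : ℝ) ^ 5 * (248832 * b ^ (5 * K)) := by
          rw [mul_comm 5 K, pow_mul]; ring
      _ ≤ (p : ℝ) ^ 5 * (b ^ 18 * b ^ (5 * K)) := by
          gcongr
          calc (248832 : ℝ) ≤ 2 ^ 18 := by norm_num
            _ ≤ b ^ 18 := by gcongr
      _ ≤ (p : ℝ) ^ 5 * b ^ (65 * (K + 2)) := by
          rw [← pow_add]
          gcongr
          omega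
      _ ≤ n := hA
      _ = (y ^ 13) ^ 5 := by rw [← hyn]; ring

end Pool.Agent.SSQ
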