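import Mathlib
import Pool.Agent.SSQ.Small
import Pool.Agent.TN.Core

set_option autoImplicit false

/-!
# Duality: small integers are products of elements of a short interval, modulo squares
-/

namespace Pool.Agent.SSQ

open Pool.Agent.SqrtParity Finset

/-- the vector of exponents modulo 2 -/
noncomputable def vv (m : ℕ) : ℕ → ZMod 2 := fun q => ((m.factorization q : ℕ) : ZMod 2)

theorem vv_mul {a b : ℕ} (ha : 1 ≤ a) (hb : 1 ≤ b) : vv (a * b) = vv a + vv b := by
  funext q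
  unfold vv
  rw [Nat.factorization_mul (by omega) (by omega), Finsupp.add_apply, Pi.add_apply]
  push_cast
  rfl

/-- the integers of `(x, x + y]` -/
noncomputable def win (x y : ℝ) : Finset ℕ :=
  (Finset.range (⌊x + y⌋₊ + 1)).filter (fun m => x < m ∧ (m : ℝ) ≤ x + y)

theorem mem_win {x y : ℝ} {m : ℕ} : m ∈ win x y ↔ x < m ∧ (m : ℝ) ≤ x + y := by
  unfold win
  rw [mem_filter, mem_range]
  constructor
  · intro h; exact h.2
  · intro h
    refine ⟨?_, h⟩
    have := Nat.le_floor h.2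
    omega

theorem span_small : ∃ K : ℕ, ∀ n b : ℝ, 1 ≤ n → 2 ≤ b → ∀ m : ℕ, 1 ≤ m →
    (m : ℝ) ^ 5 * b ^ K ≤ n →
      vv m ∈ Submodule.span (ZMod 2) (vv '' (win (n ^ 2) (n / b) : Set ℕ)) := by
  obtain ⟨K, hK⟩ := all_one
  refine ⟨K, ?_⟩
  intro n b hn hb m hm hmn
  by_contra hcon
  obtain ⟨φ, hφ1, hφ2⟩ := Submodule.exists_le_ker_of_notMem hcon
  classical
  obtain ⟨f, hf⟩ : ∃ f : ℕ → ℤ, ∀ a, f a = if φ (vv a) = 0 then 1 else -1 := ⟨_, fun _ => rfl⟩
  have hcm : CM f := by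
    constructor
    · intro a _
      rw [hf]
      split_ifs
      · exact Or.inl rfl
      · exact Or.inr rfl
    · intro a c ha hc
      rw [hf, hf, hf, vv_mul ha hc, map_add]
      generalize φ (vv a) = s
      generalize φ (vv c) = t
      revert s t
      decide
  have hH : Hyp f n b 1 := by
    refine ⟨hcm, hn, hb, ?_⟩
    intro a h1 h2
    have hmem : vv a ∈ Submodule.span (ZMod 2) (vv '' (win (n ^ 2) (n / b) : Set ℕ)) := by
      apply Submodule.subset_span
      exact ⟨a, by simpa using mem_win.2 ⟨h1, h2⟩, rfl⟩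
    have := hφ2 hmem
    rw [LinearMap.mem_ker] at this
    rw [hf, if_pos this]
  have := hK f n b 1 hH m hm hmn
  rw [hf] at this
  split_ifs at this with h
  exact hφ1 h

theorem exists_set {T : Finset ℕ} (hT : ∀ a ∈ T, 1 ≤ a) {m : ℕ} (hm : 1 ≤ m)
    (h : vv m ∈ Submodule.span (ZMod 2) (vv '' (T : Set ℕ))) :
    ∃ S : Finset ℕ, S ⊆ T ∧ IsSquare (m * ∏ a ∈ S, a) := by
  classical
  rw [Submodule.mem_span_image_finset_iff_exists_fun'] at h
  obtain ⟨c, hc⟩ := h
  refine ⟨T.filter (fun a => c a ≠ 0), filter_subset _ _, ?_⟩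
  have hne : ∀ a ∈ T.filter (fun a => c a ≠ 0), a ≠ 0 := by
    intro a ha
    have := hT a (mem_filter.1 ha).1
    omega
  apply Pool.Agent.TN.isSquare_of_even
  · exact mul_ne_zero (by omega) (prod_ne_zero_iff.2 hne)
  · intro q
    rw [Nat.factorization_mul (by omega) (prod_ne_zero_iff.2 hne), Finsupp.add_apply,
      Nat.factorization_prod_apply hne]
    have h1 := congrFun hc q
    rw [Finset.sum_apply] at h1
    have h2 : ∑ a ∈ T.filter (fun a => c a ≠ 0), vv a q
        = ∑ a ∈ T, (if c a ≠ 0 then vv a q else 0) := sum_filter _ _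
    have h3 : vv m q = ∑ a ∈ T.filter (fun a => c a ≠ 0), vv a q := by
      rw [← h1, h2]
      apply sum_congr rfl
      intro a _
      by_cases hca : c a = 0
      · simp [hca]
      · have : c a = 1 := by
          generalize c a = z at hca
          revert z
          decide
        simp [this]
    unfold vv at h3
    rw [← ZMod.natCast_eq_zero_iff_even]
    push_cast
    rw [h3]
    exact CharTwo.add_self_eq_zero _

/-- a number all of whose prime factors are small lies in the span -/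
theorem span_smooth {K : ℕ} {V : Submodule (ZMod 2) (ℕ → ZMod 2)} {n b : ℝ}
    (h : ∀ m : ℕ, 1 ≤ m → (m : ℝ) ^ 5 * b ^ K ≤ n → vv m ∈ V) :
    ∀ N : ℕ, 1 ≤ N → (∀ p : ℕ, p.Prime → p ∣ N → (p : ℝ) ^ 5 * b ^ K ≤ n) → vv N ∈ V := by
  intro N
  induction N using Nat.strong_induction_on with
  | _ N ih =>
    intro hN hp
    by_cases h1 : N = 1
    · subst h1
      have : vv 1 = 0 := by
        funext q
        simp [vv]
      rw [this]; exact V.zero_mem
    · obtain ⟨q, hq, hqN⟩ := Nat.exists_prime_and_dvd h1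
      obtain ⟨c, rfl⟩ := hqN
      have hc : 1 ≤ c := Nat.pos_of_ne_zero (by rintro rfl; simp at hN)
      rw [vv_mul hq.one_le hc]
      apply V.add_mem
      · exact h q hq.one_le (hp q hq (Dvd.intro _ rfl))
      · apply ih c _ hc
        · intro p hpp hpc
          exact hp p hpp (hpc.mul_left q)
        · have := hq.two_le
          nlinarith

/-- the same with the condition on the primes of odd exponent only -/
theorem span_odd {K : ℕ} {V : Submodule (ZMod 2) (ℕ → ZMod 2)} {n b : ℝ}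
    (h : ∀ m : ℕ, 1 ≤ m → (m : ℝ) ^ 5 * b ^ K ≤ n → vv m ∈ V) {N : ℕ} (hN : 1 ≤ N)
    (hp : ∀ p : ℕ, p.Prime → Odd (N.factorization p) → (p : ℝ) ^ 5 * b ^ K ≤ n) : vv N ∈ V := by
  obtain ⟨a, c, hac, ha⟩ := Nat.sq_mul_squarefree N
  have hc1 : 1 ≤ c := Nat.pos_of_ne_zero (by rintro rfl; simp at hac; omega)
  have ha1 : 1 ≤ a := Nat.pos_of_ne_zero (by rintro rfl; simp at hac; omega)
  have hvv : vv N = vv a := by
    rw [← hac, vv_mul (Nat.one_le_pow _ _ hc1) ha1, pow_two, vv_mul hc1 hc1]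
    funext q
    rw [Pi.add_apply, Pi.add_apply]
    rw [CharTwo.add_self_eq_zero, zero_add]
  rw [hvv]
  apply span_smooth h a ha1
  intro p hpp hpa
  apply hp p hpp
  rw [← hac, Nat.factorization_mul (by positivity) (by omega), Nat.factorization_pow,
    Finsupp.add_apply, Finsupp.smul_apply, smul_eq_mul]
  have h1 : a.factorization p = 1 := by
    have e1 := Squarefree.natFactorization_le_one p ha
    have e2 := (hpp.dvd_iff_one_le_factorization (by omega)).1 hpa
    omega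
  rw [h1]
  exact ⟨c.factorization p, rfl⟩

/-- the set version in intervals `(x, x + x ^ (1/2 - σ)]` -/
theorem exists_square_set {δ : ℝ} (hδ : 0 < δ) : ∃ σ : ℝ, 0 < σ ∧ σ ≤ 1 / 4 ∧ ∃ x0 : ℝ, 1 ≤ x0 ∧
    ∀ x ≥ x0, ∀ N : ℕ, 1 ≤ N →
      (∀ p : ℕ, p.Prime → Odd (N.factorization p) → (p : ℝ) ≤ x ^ (1 / 10 - δ)) →
      ∃ S : Finset ℕ, S ⊆ win x (x ^ (1 / 2 - σ)) ∧ IsSquare (N * ∏ a ∈ S, a) := by
  obtain ⟨K, hK⟩ := span_small
  obtain ⟨σ, hσ⟩ : ∃ σ : ℝ, σ = min (1 / 4) (5 * δ / (K + 1)) := ⟨_, rfl⟩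
  have hσ0 : 0 < σ := by rw [hσ]; exact lt_min (by norm_num) (by positivity)
  have hσ1 : σ ≤ 1 / 4 := by rw [hσ]; exact min_le_left _ _
  have hσK : σ * K ≤ 5 * δ := by
    have e1 : σ ≤ 5 * δ / (K + 1) := by rw [hσ]; exact min_le_right _ _
    rw [le_div_iff₀ (by positivity)] at e1
    linarith
  refine ⟨σ, hσ0, hσ1, 2 ^ (1 / σ), Real.one_le_rpow (by norm_num) (by positivity), ?_⟩
  intro x hx N hN hp
  have h21 : (1 : ℝ) ≤ 2 ^ (1 / σ) := Real.one_le_rpow (by norm_num) (by positivity)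
  have hx1 : 1 ≤ x := h21.trans hx
  have hx0 : 0 < x := by linarith
  have hs : √x ^ 2 = x := Real.sq_sqrt hx0.le
  have hb : 2 ≤ x ^ σ := by
    calc (2 : ℝ) = (2 ^ (1 / σ)) ^ σ := by
          rw [← Real.rpow_mul (by norm_num)]
          have : 1 / σ * σ = 1 := by field_simp
          rw [this, Real.rpow_one]
      _ ≤ x ^ σ := Real.rpow_le_rpow (by positivity) hx hσ0.le
  have hlen : √x / x ^ σ = x ^ (1 / 2 - σ) := by
    rw [Real.sqrt_eq_rpow, ← Real.rpow_sub hx0]
  have h1 := hK (√x) (x ^ σ) (Real.one_le_sqrt.2 hx1) hb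
  rw [hs, hlen] at h1
  have hT : ∀ a ∈ win x (x ^ (1 / 2 - σ)), 1 ≤ a := by
    intro a ha
    have := (mem_win.1 ha).1
    have : (0 : ℝ) < a := by linarith
    exact_mod_cast this
  apply exists_set hT hN (span_odd h1 hN ?_)
  · intro p hpp hodd
    have hpx := hp p hpp hodd
    calc (p : ℝ) ^ 5 * (x ^ σ) ^ K ≤ (x ^ (1 / 10 - δ)) ^ 5 * (x ^ σ) ^ K := by gcongr
      _ = x ^ (1 / 2 - 5 * δ + σ * K) := by
          rw [← Real.rpow_natCast, ← Real.rpow_natCast, ← Real.rpow_mul hx0.le,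
            ← Real.rpow_mul hx0.le, ← Real.rpow_add hx0]
          congr 1; push_cast; ring
      _ ≤ x ^ (1 / 2 : ℝ) := Real.rpow_le_rpow_of_exponent_le hx1 (by linarith)
      _ = √x := (Real.sqrt_eq_rpow x).symm

end Pool.Agent.SSQ
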