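import Mathlib
import Pool.Agent.SSQ.Defs
import Pool.Agent.SSQ.Step

set_option autoImplicit false

/-!
# From the period `12` to the values `1`
-/

namespace Pool.Agent.SSQ

open Pool.Agent.SqrtParity Finset

/-! M12a -/
theorem finish {f : ℕ → ℤ} (hf : CM f) {M₁ M₂ p : ℕ} (h1 : 1 ≤ M₁)
    (h : ∀ m : ℕ, M₁ ≤ m → m ≤ M₂ → f m = f (m + 12)) (hp : 1 ≤ p) (hb : p * (M₁ + 12) ≤ M₂) :
    f p = 1 := by
  -- a multiple of `12` in `[M₁, M₁ + 12)`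
  obtain ⟨u, hu1, hu2, c, hc⟩ : ∃ u, M₁ ≤ u ∧ u < M₁ + 12 ∧ 12 ∣ u :=
    ⟨12 * ((M₁ + 11) / 12), by omega, by omega, Dvd.intro _ rfl⟩
  have hstep : ∀ k : ℕ, u + 12 * k ≤ M₂ + 12 → f (u + 12 * k) = f u := by
    intro k
    induction k with
    | zero => intro _; rw [mul_zero, add_zero]
    | succ k ih =>
      intro hk
      rw [← ih (by omega), h (u + 12 * k) (by omega) (by omega)]
      congr 1
  have hpu : p * u ≤ M₂ := le_trans (Nat.mul_le_mul_left p hu2.le) hb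
  have h2 := hstep ((p - 1) * c) (by
    have : u + 12 * ((p - 1) * c) = p * u := by
      obtain ⟨p', rfl⟩ : ∃ p', p = p' + 1 := ⟨p - 1, by omega⟩
      rw [hc, Nat.add_sub_cancel]
      ring
    omega)
  have h3 : u + 12 * ((p - 1) * c) = p * u := by
    obtain ⟨p', rfl⟩ : ∃ p', p = p' + 1 := ⟨p - 1, by omega⟩
    rw [hc, Nat.add_sub_cancel]
    ring
  rw [h3, hf.mul p u hp (by omega)] at h2
  have h4 := hf.sq (n := u) (by omega)
  have h5 : f p * (f u * f u) = f u * f u := by rw [← mul_assoc, h2]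
  rw [h4, mul_one] at h5
  exact h5

/-! M12b -/
theorem no_constant : ∃ A : ℕ, ∀ (f : ℕ → ℤ) (n b : ℝ) (e : ℤ), Hyp f n b e →
    ∀ p : ℕ, 1 ≤ p → (b * p) ^ A ≤ n → f p = 1 := by
  obtain ⟨K, hK⟩ := step12
  refine ⟨(2 * K + 4) * 65, fun f n b e H p hp hA => ?_⟩
  have hn := H.hn
  have hb := H.hb
  have hn0 : 0 ≤ n := by linarith
  have hb1 : 1 ≤ b := by linarith
  have hb0 : 0 < b := by linarith
  have hpr : (1 : ℝ) ≤ p := by exact_mod_cast hp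
  set y : ℝ := n ^ ((1 : ℝ) / 65) with hy
  have hy0 : 0 ≤ y := Real.rpow_nonneg hn0 _
  have hyn : y ^ 65 = n := by
    rw [hy, ← Real.rpow_natCast, ← Real.rpow_mul hn0]
    norm_num
  have hy1 : (b * p) ^ (2 * K + 4) ≤ y := by
    rw [pow_mul, ← hyn] at hA
    exact (pow_le_pow_iff_left₀ (by positivity) hy0 (by norm_num)).1 hA
  have hbK : 1 ≤ b ^ K := one_le_pow₀ hb1
  have hy2 : 16 * p * (b ^ K) ^ 2 ≤ y := by
    refine le_trans ?_ hy1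
    have e1 : (b * p) ^ (2 * K + 4) = (b ^ K) ^ 2 * b ^ 4 * (p : ℝ) ^ (2 * K + 4) := by
      rw [mul_pow, pow_add, mul_comm 2 K, pow_mul]
    have e2 : (p : ℝ) ≤ (p : ℝ) ^ (2 * K + 4) := le_self_pow₀ hpr (by omega)
    have e3 : (16 : ℝ) ≤ b ^ 4 := by
      calc (16 : ℝ) = 2 ^ 4 := by norm_num
        _ ≤ b ^ 4 := by gcongr
    rw [e1]
    calc 16 * (p : ℝ) * (b ^ K) ^ 2 = (b ^ K) ^ 2 * 16 * p := by ring
      _ ≤ _ := by gcongr
  have hy3 : 1 ≤ y := by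
    refine le_trans ?_ hy2
    have : (1 : ℝ) ≤ (b ^ K) ^ 2 := one_le_pow₀ hbK
    nlinarith
  set M₁ : ℕ := ⌈y ^ 10 * b ^ K⌉₊ with hM₁
  set M₂ : ℕ := ⌊y ^ 13 / b ^ K⌋₊ with hM₂
  have hM1 : y ^ 10 * b ^ K ≤ M₁ := Nat.le_ceil _
  have hM1' : (M₁ : ℝ) < y ^ 10 * b ^ K + 1 := Nat.ceil_lt_add_one (by positivity)
  have hM2 : (M₂ : ℝ) ≤ y ^ 13 / b ^ K := Nat.floor_le (by positivity)
  have hy10 : 1 ≤ y ^ 10 := one_le_pow₀ hy3
  have hone : 1 ≤ y ^ 10 * b ^ K := by nlinarith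
  refine finish H.cm (M₁ := M₁) (M₂ := M₂) ?_ ?_ hp ?_
  · have : (1 : ℝ) ≤ M₁ := hone.trans hM1
    exact_mod_cast this
  · intro m hm1 hm2
    have h1 : y ^ 10 * b ^ K ≤ m := hM1.trans (by exact_mod_cast hm1)
    have h2 : (m : ℝ) ≤ y ^ 13 / b ^ K := le_trans (by exact_mod_cast hm2) hM2
    refine hK f n b e H m ?_ ?_
    · calc n ^ 2 * b ^ K = y ^ 130 * (b ^ K) ^ 1 := by rw [← hyn]; ring
        _ ≤ y ^ 130 * (b ^ K) ^ 13 := by
          gcongr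
          norm_num
        _ = (y ^ 10 * b ^ K) ^ 13 := by ring
        _ ≤ (m : ℝ) ^ 13 := by gcongr
    · calc (m : ℝ) ^ 5 * b ^ K ≤ (y ^ 13 / b ^ K) ^ 5 * b ^ K := by gcongr
        _ = y ^ 65 / (b ^ K) ^ 4 := by
          field_simp
        _ ≤ y ^ 65 / 1 := by
          gcongr
          exact one_le_pow₀ hbK
        _ = n := by rw [div_one, hyn]
  · rw [hM₂]
    apply Nat.le_floor
    push_cast
    rw [le_div_iff₀ (by positivity)]
    have h1 : (M₁ : ℝ) + 12 ≤ 14 * (y ^ 10 * b ^ K) := by linarith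
    calc (p : ℝ) * (M₁ + 12) * b ^ K ≤ p * (14 * (y ^ 10 * b ^ K)) * b ^ K := by gcongr
      _ = 14 * p * (b ^ K) ^ 2 * y ^ 10 := by ring
      _ ≤ y * y ^ 10 := by
        gcongr
        have : (0 : ℝ) ≤ p * (b ^ K) ^ 2 := by positivity
        nlinarith
      _ = y ^ 11 := by ring
      _ ≤ y ^ 13 := pow_le_pow_right₀ hy3 (by norm_num)

end Pool.Agent.SSQ
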