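import Pool.Agent.SSQ.Defs

set_option autoImplicit false

/-!
# The pair relation
-/

namespace Pool.Agent.SSQ

open Pool.Agent.SqrtParity Finset

namespace Pr

theorem kk_cube {n h : ℝ} (hh : 0 < h) : kk n h ^ 3 = n ^ 2 / h := by
  have h0 : 0 ≤ n ^ 2 / h := by positivity
  unfold kk
  rw [← Real.rpow_natCast, ← Real.rpow_mul h0]
  norm_num

theorem kk_pos {n h : ℝ} (hn : 1 ≤ n) (hh : 0 < h) : 0 < kk n h := by
  have h0 : 0 < n := by linarith
  unfold kk
  positivity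

theorem kk_anti {n h h' : ℝ} (hh : 0 < h) (hle : h ≤ h') : kk n h' ≤ kk n h := by
  unfold kk
  have h0 : 0 < h' := by linarith
  apply Real.rpow_le_rpow (by positivity) _ (by norm_num)
  gcongr

/-- the main inequality: the ray through the first block meets the second block -/
theorem ray {n h h' : ℝ} (hn : 1 ≤ n) (hh : 0 < h) (hlt : h < h') :
    kk n h' ≤ (2 * h + h') / (h + 2 * h') * kk n h ∧
    (2 * h + h') / (h + 2 * h') * kk n h ≤ kk n h' + kk n h * ((h' - h) / h) ^ 3 / 2 := by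
  have hh' : 0 < h' := by linarith
  set k := kk n h with hk
  set k' := kk n h' with hk'
  have hk0 : 0 < k := kk_pos hn hh
  have hk0' : 0 < k' := kk_pos hn hh'
  have hk3 : k ^ 3 = n ^ 2 / h := kk_cube hh
  have hk3' : k' ^ 3 = n ^ 2 / h' := kk_cube hh'
  have hkk : k' ≤ k := kk_anti hh hlt.le
  have hl : 0 < h + 2 * h' := by linarith
  have hd : 0 < h' - h := by linarith
  set δ : ℝ := (h' - h) ^ 3 * (h + h') / (3 * h * (h + 2 * h') ^ 3) with hδ
  have hδ0 : 0 < δ := by positivity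
  have hcube : ((2 * h + h') / (h + 2 * h') * k) ^ 3 = k' ^ 3 * (1 + 3 * δ) := by
    rw [mul_pow, hk3, hk3', hδ]
    field_simp
    ring
  have hδle : δ ≤ ((h' - h) / h) ^ 3 / 2 := by
    rw [hδ, div_pow, div_div, div_le_div_iff₀ (by positivity) (by positivity)]
    have e1 : (h + h') * (h ^ 3 * 2) ≤ 3 * h * (h + 2 * h') ^ 3 := by
      have e2 : 0 < h * h' := by positivity
      have e3 : 0 ≤ h ^ 4 := by positivity
      have e4 : 0 ≤ h ^ 3 * h' := by positivity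
      have e5 : 0 ≤ h ^ 2 * h' ^ 2 := by positivity
      have e6 : 0 ≤ h * h' ^ 3 := by positivity
      nlinarith
    calc (h' - h) ^ 3 * (h + h') * (h ^ 3 * 2) = (h' - h) ^ 3 * ((h + h') * (h ^ 3 * 2)) := by ring
      _ ≤ (h' - h) ^ 3 * (3 * h * (h + 2 * h') ^ 3) := by gcongr
  have hy0 : 0 ≤ (2 * h + h') / (h + 2 * h') * k := by positivity
  constructor
  · have h1 : k' ^ 3 ≤ ((2 * h + h') / (h + 2 * h') * k) ^ 3 := by
      rw [hcube]
      have : 0 < k' ^ 3 := by positivity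
      nlinarith
    exact (pow_le_pow_iff_left₀ hk0'.le hy0 (by norm_num)).mp h1
  · have h1 : ((2 * h + h') / (h + 2 * h') * k) ^ 3 ≤ (k' * (1 + δ)) ^ 3 := by
      rw [hcube, mul_pow]
      have e1 : 1 + 3 * δ ≤ (1 + δ) ^ 3 := by nlinarith [sq_nonneg δ, pow_pos hδ0 3]
      gcongr
    have h2 := (pow_le_pow_iff_left₀ hy0 (by positivity) (by norm_num)).mp h1
    have h3 : k' * δ ≤ k * (((h' - h) / h) ^ 3 / 2) := by gcongr
    calc (2 * h + h') / (h + 2 * h') * k ≤ k' * (1 + δ) := h2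
      _ = k' + k' * δ := by ring
      _ ≤ k' + k * (((h' - h) / h) ^ 3 / 2) := by linarith
      _ = _ := by ring

end Pr

/-- pair relation -/
theorem pair {f : ℕ → ℤ} (hf : CM f) {n b : ℝ} (hn : 1 ≤ n) (hb : 2 ≤ b) {J h h' j j' : ℕ}
    {κ κ' : ℤ} (B : Blk f n b J h j κ) (B' : Blk f n b J h' j' κ') (hh : 1 ≤ h) (hlt : h < h')
    (c1 : 12 * (h' : ℝ) * J ^ 2 ≤ Ih n b J h) (c2 : 12 * (h' : ℝ) * J ^ 2 ≤ Ih n b J h')
    (c3 : kk n h * (((h' : ℝ) - h) / h) ^ 3 ≤ Ih n b J h') :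
    f (h + 2 * h') * f (2 * h + h') = κ * κ' := by
  obtain ⟨hj1, hjJ, -, hB⟩ := B
  obtain ⟨hj1', hjJ', -, hB'⟩ := B'
  have hH : (1 : ℝ) ≤ h := by exact_mod_cast hh
  have hHH : (h : ℝ) < h' := by exact_mod_cast hlt
  have hJ1 : (1 : ℝ) ≤ J := by exact_mod_cast hj1.trans hjJ
  have hk0 : 0 < kk n h := Pr.kk_pos hn (by linarith)
  obtain ⟨r1, r2⟩ := Pr.ray hn (by linarith : (0 : ℝ) < h) hHH
  set k := kk n h with hk
  set k' := kk n h' with hk'
  have hDle : ((j * j' : ℕ) : ℝ) ≤ (J : ℝ) ^ 2 := by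
    push_cast
    rw [pow_two]
    have a1 : (j : ℝ) ≤ J := by exact_mod_cast hjJ
    have a2 : (j' : ℝ) ≤ J := by exact_mod_cast hjJ'
    gcongr
  have hD1 : 1 ≤ j * j' := Nat.mul_pos hj1 hj1'
  obtain ⟨D, hD⟩ : ∃ D : ℕ, D = j * j' := ⟨_, rfl⟩
  rw [← hD] at hDle hD1
  have hDR : (1 : ℝ) ≤ D := by exact_mod_cast hD1
  -- `k` is large
  have hkbig : 6 * (h' : ℝ) * J ^ 2 ≤ k := by
    have s1 : 12 * (h' : ℝ) * J ^ 2 ≤ √(k / (800 * b ^ 2 * h)) / (2 * J) - J := c1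
    have s2 : √(k / (800 * b ^ 2 * h)) ≤ √k := by
      apply Real.sqrt_le_sqrt
      apply div_le_self hk0.le
      nlinarith [sq_nonneg b]
    have s3 : √(k / (800 * b ^ 2 * h)) / (2 * J) ≤ √(k / (800 * b ^ 2 * h)) :=
      div_le_self (Real.sqrt_nonneg _) (by linarith)
    have s4 : 12 * (h' : ℝ) * J ^ 2 ≤ √k := by linarith
    have s5 : 1 ≤ 12 * (h' : ℝ) * J ^ 2 := by
      have : (1 : ℝ) ≤ (J : ℝ) ^ 2 := one_le_pow₀ hJ1
      nlinarith
    have s6 : √k ≤ k := by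
      have e : √k * √k = k := Real.mul_self_sqrt hk0.le
      nlinarith
    nlinarith
  set L : ℝ := h + 2 * h' with hL
  set L' : ℝ := 2 * h + h' with hL'
  have hL0 : 0 < L := by rw [hL]; linarith
  have hLD : 2 * L * D ≤ 6 * (h' : ℝ) * J ^ 2 := by
    have e1 : 2 * L ≤ 6 * (h' : ℝ) := by rw [hL]; linarith
    exact mul_le_mul e1 hDle (by positivity) (by positivity)
  have hLD0 : 0 < 2 * L * D := by positivity
  obtain ⟨t, ht⟩ : ∃ t : ℕ, t = ⌊k / (2 * L * D)⌋₊ := ⟨_, rfl⟩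
  have ht1 : 1 ≤ t := by
    rw [ht]; apply Nat.le_floor
    rw [Nat.cast_one, le_div_iff₀ hLD0]
    linarith
  have ht2 : (t : ℝ) * (2 * L * D) ≤ k := by
    rw [← le_div_iff₀ hLD0, ht]
    exact Nat.floor_le (by positivity)
  have ht3 : k < ((t : ℝ) + 1) * (2 * L * D) := by
    rw [← div_lt_iff₀ hLD0, ht]
    exact Nat.lt_floor_add_one _
  have hw1 : 1 ≤ D * t := Nat.mul_pos hD1 ht1
  have hx1 : 2 * (((h + 2 * h') * (D * t) : ℕ) : ℝ) = t * (2 * L * D) := by
    push_cast; rw [hL]; ring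
  have hx2 : 2 * (((2 * h + h') * (D * t) : ℕ) : ℝ) = L' / L * (t * (2 * L * D)) := by
    push_cast
    rw [show L' / L * (t * (2 * L * D)) = L' * (2 * D * t) by field_simp]
    rw [hL']; ring
  have f1 : f ((h + 2 * h') * (D * t)) = κ := by
    apply hB
    · exact Nat.mul_pos (by omega) hw1
    · rw [hD]
      exact Dvd.dvd.mul_left (Dvd.dvd.mul_right (Dvd.intro _ rfl) _) _
    · rw [hx1, abs_le]
      constructor <;> linarith
  have f2 : f ((2 * h + h') * (D * t)) = κ' := by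
    apply hB'
    · exact Nat.mul_pos (by omega) hw1
    · rw [hD]
      exact Dvd.dvd.mul_left (Dvd.dvd.mul_right (Dvd.intro_left _ rfl) _) _
    · rw [hx2]
      have hq0 : 0 ≤ L' / L := by positivity
      have hq1 : L' / L ≤ 1 := by
        rw [div_le_one hL0, hL, hL']; linarith
      have e1 : L' / L * (t * (2 * L * D)) ≤ L' / L * k := by gcongr
      have e2 : L' / L * k - 6 * (h' : ℝ) * J ^ 2 ≤ L' / L * (t * (2 * L * D)) := by
        have e3 : k - 6 * (h' : ℝ) * J ^ 2 ≤ t * (2 * L * D) := by linarith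
        have e4 : L' / L * (k - 6 * (h' : ℝ) * J ^ 2) ≤ L' / L * (t * (2 * L * D)) := by gcongr
        have e5 : L' / L * (6 * (h' : ℝ) * J ^ 2) ≤ 1 * (6 * (h' : ℝ) * J ^ 2) := by gcongr
        linarith
      rw [abs_le]
      constructor
      · linarith
      · linarith
  rw [hf.mul _ _ (by omega) hw1] at f1 f2
  have hs := hf.sq hw1
  calc f (h + 2 * h') * f (2 * h + h')
      = f (h + 2 * h') * f (2 * h + h') * (f (D * t) * f (D * t)) := by rw [hs, mul_one]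
    _ = (f (h + 2 * h') * f (D * t)) * (f (2 * h + h') * f (D * t)) := by ring
    _ = κ * κ' := by rw [f1, f2]

end Pool.Agent.SSQ
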